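import Pool.Agent.TH746.Final

/-!
# Normals in a subspace or orthogonal to it: the variation which turns the direction in the plane spanned
by its two components
-/

set_option autoImplicit false

open MeasureTheory Set Filter Topology
open scoped InnerProductSpace
open Pool.Agent.H721R2.Quart Pool.Agent.H721R2.Ivrii Pool.Agent.TH746

namespace Pool.Agent.U939.IV

/-- the projections to two complementary orthogonal subspaces -/
structure Spl {E : Type*} [NormedAddCommGroup E] [InnerProductSpace ℝ E] (P Q : E →L[ℝ] E) :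
    Prop where
  add : ∀ v, P v + Q v = v
  symP : ∀ v w, ⟪P v, w⟫_ℝ = ⟪v, P w⟫_ℝ
  symQ : ∀ v w, ⟪Q v, w⟫_ℝ = ⟪v, Q w⟫_ℝ
  PQ : ∀ v, P (Q v) = 0
  QP : ∀ v, Q (P v) = 0

section
variable {E : Type*} [NormedAddCommGroup E] [InnerProductSpace ℝ E] {P Q : E →L[ℝ] E}

theorem Spl.swap (h : Spl P Q) : Spl Q P :=
  ⟨fun v => by rw [add_comm, h.add], h.symQ, h.symP, h.QP, h.PQ⟩

theorem Spl.PP (h : Spl P Q) (v : E) : P (P v) = P v := by
  have h1 := h.add (P v)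
  rwa [h.QP, add_zero] at h1

theorem Spl.inner_PQ (h : Spl P Q) (v w : E) : ⟪P v, Q w⟫_ℝ = 0 := by
  rw [h.symP, h.PQ, inner_zero_right]

/-- the reflection at a mirror with the normal in the first subspace -/
theorem Spl.vertex (h : Spl P Q) {n e X y : E} {S : E →L[ℝ] E} {a b T c : ℝ} (hQn : Q n = 0)
    (hnn : ⟪n, n⟫_ℝ = 1) (hne : ⟪n, e⟫_ℝ ≠ 0) (hsym : ∀ v w, ⟪S v, w⟫_ℝ = ⟪v, S w⟫_ℝ)
    (hSn : S n = 0) (hS : ∀ w, ⟪n, w⟫_ℝ = 0 → Q (S w) = 0) (hy : y = a • P e + b • Q e)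
    (hX : X = T • y + c • e) (hnX : ⟪n, X⟫_ℝ = 0) :
    S X = 0 ∧ rf n y = a • P (rf n e) + b • Q (rf n e) ∧ X = T • rf n y + c • rf n e := by
  have hPn : P n = n := by
    have h1 := h.add n
    rwa [hQn, add_zero] at h1
  have hnQ : ∀ v, ⟪n, Q v⟫_ℝ = 0 := by
    intro v
    rw [← h.symQ, hQn, inner_zero_left]
  have hnP : ∀ v, ⟪n, P v⟫_ℝ = ⟪n, v⟫_ℝ := by
    intro v
    rw [← h.symP, hPn]
  have hc : c = -(T * a) := by
    rw [hX, hy, inner_add_right, inner_smul_right, inner_add_right, inner_smul_right,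
      inner_smul_right, inner_smul_right, hnQ, hnP] at hnX
    have h1 : (T * a + c) * ⟪n, e⟫_ℝ = 0 := by linarith
    have h2 := (mul_eq_zero.1 h1).resolve_right hne
    linarith
  have hX2 : X = (T * (b - a)) • Q e := by
    rw [hX, hy, hc]
    nth_rewrite 3 [← h.add e]
    module
  have hSQ : S (Q e) = 0 := by
    refine ext_inner_right ℝ fun w => ?_
    rw [inner_zero_left, hsym]
    have h1 : S w = S (w - ⟪n, w⟫_ℝ • n) := by
      rw [map_sub, map_smul, hSn, smul_zero, sub_zero]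
    rw [h1, h.symQ, hS _ (by rw [inner_sub_right, inner_smul_right, hnn]; ring), inner_zero_right]
  have hPr : P (rf n e) = P e - (2 * ⟪n, e⟫_ℝ) • n := by
    unfold rf
    rw [map_sub, map_smul, hPn]
  have hQr : Q (rf n e) = Q e := by
    unfold rf
    rw [map_sub, map_smul, hQn, smul_zero, sub_zero]
  have hry : rf n y = a • P (rf n e) + b • Q (rf n e) := by
    rw [hPr, hQr, hy]
    unfold rf
    rw [inner_add_right, inner_smul_right, inner_smul_right, hnQ, hnP]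
    module
  refine ⟨?_, hry, ?_⟩
  · rw [hX2, map_smul, hSQ, smul_zero]
  · have e1 := h.add (rf n e)
    rw [hQr] at e1
    rw [hry, hX2, hc, hQr]
    obtain ⟨p, hp⟩ : ∃ p, p = P (rf n e) := ⟨_, rfl⟩
    rw [← hp] at e1 ⊢
    rw [← e1]
    module

end

section
variable {E Z : Type*} [NormedAddCommGroup E] [InnerProductSpace ℝ E]
  [NormedAddCommGroup Z] [NormedSpace ℝ Z] (C : Chn E Z)

theorem stepjac {k : ℕ} (hk : k < C.N) {z : Z} (hz : z ∈ C.U) (ζ : Z) :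
    fderiv ℝ (C.x (k + 1)) z ζ = fderiv ℝ (C.x k) z ζ + fderiv ℝ (C.L k) z ζ • C.e k z +
      C.L k z • fderiv ℝ (C.e k) z ζ :=
  G3_step C.hU hz (C.dx k hk.le z hz) (C.de k hk.le z hz) (C.dL k hk z hz)
    (fun z _ => C.step k hk z) ζ

theorem refljac {k : ℕ} (hk : k < C.N) {z : Z} (hz : z ∈ C.U) (ζ : Z) :
    fderiv ℝ (C.e (k + 1)) z ζ = rf (C.n (k + 1) z) (fderiv ℝ (C.e k) z ζ)
      - (2 * ⟪fderiv ℝ (C.n (k + 1)) z ζ, C.e k z⟫_ℝ) • C.n (k + 1) z
      - (2 * ⟪C.n (k + 1) z, C.e k z⟫_ℝ) • fderiv ℝ (C.n (k + 1)) z ζ := by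
  have h1 : C.e (k + 1) = fun z => rf (C.n (k + 1) z) (C.e k z) := by
    funext z; exact C.refl k hk z
  rw [h1]
  exact G3_rf_fderiv (C.dn (k + 1) hk z hz) (C.de k hk.le z hz) ζ

theorem tr' {k : ℕ} (hk : k + 1 < C.N) {z : Z} (hz : z ∈ C.U) :
    ⟪C.n (k + 1) z, C.e k z⟫_ℝ ≠ 0 := by
  intro h
  apply C.tr (k + 1) hk z hz
  rw [C.refl k (by omega) z]
  unfold rf
  rw [inner_sub_right, inner_smul_right, h]
  simp

/-- The variations are arbitrary on all sides. -/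
theorem surj_le {z : Z} (hz : z ∈ C.U) : ∀ k < C.N, ∀ Y δ, ⟪C.n k z, Y⟫_ℝ = 0 →
    ⟪C.e k z, δ⟫_ℝ = 0 → ∃ ζ, fderiv ℝ (C.x k) z ζ = Y ∧ fderiv ℝ (C.e k) z ζ = δ := by
  intro k
  induction k with
  | zero => exact fun _ => C.surj z hz
  | succ k ih =>
    intro hk Y δ hY hδ
    have hk' : k < C.N := by omega
    have hn := C.nn (k + 1) hk z hz
    have hrefl := C.refl k hk' z
    -- the kick at the vertex `k + 1`
    obtain ⟨K, hK⟩ : ∃ K, K = -C.S (k + 1) z Y := ⟨_, rfl⟩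
    have hKn : ⟪K, C.n (k + 1) z⟫_ℝ = 0 := by
      rw [hK, inner_neg_left, C.sym (k + 1) hk z hz, C.Sn (k + 1) hk z hz, inner_zero_right, neg_zero]
    obtain ⟨DD, hDD⟩ : ∃ DD, DD = rf (C.n (k + 1) z) (δ + (2 * ⟪K, C.e k z⟫_ℝ) • C.n (k + 1) z +
      (2 * ⟪C.n (k + 1) z, C.e k z⟫_ℝ) • K) := ⟨_, rfl⟩
    have hDDe : ⟪C.e k z, DD⟫_ℝ = 0 := by
      rw [hDD, ← G3_rf_sym, ← hrefl, inner_add_right, inner_add_right, hδ, inner_smul_right,
        inner_smul_right]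
      have h1 : ⟪C.e (k + 1) z, C.n (k + 1) z⟫_ℝ = -⟪C.n (k + 1) z, C.e k z⟫_ℝ := by
        rw [hrefl, real_inner_comm]
        unfold rf
        rw [inner_sub_right, inner_smul_right, hn]
        ring
      have h2 : ⟪C.e (k + 1) z, K⟫_ℝ = ⟪K, C.e k z⟫_ℝ := by
        rw [hrefl, real_inner_comm]
        unfold rf
        rw [inner_sub_right, inner_smul_right, hKn]
        ring
      rw [h1, h2]
      ring
    -- the previous vertex
    obtain ⟨s, hs⟩ : ∃ s, s = ⟪C.n k z, Y - C.L k z • DD⟫_ℝ / ⟪C.n k z, C.e k z⟫_ℝ := ⟨_, rfl⟩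
    obtain ⟨ζ, h1, h2⟩ := ih hk' (Y - C.L k z • DD - s • C.e k z) DD (by
      rw [inner_sub_right, inner_smul_right, hs, div_mul_cancel₀ _ (C.tr k hk' z hz), sub_self]) hDDe
    have h3 : fderiv ℝ (C.x (k + 1)) z ζ = Y + (fderiv ℝ (C.L k) z ζ - s) • C.e k z := by
      rw [stepjac C hk' hz, h1, h2]; module
    have h4 : fderiv ℝ (C.L k) z ζ - s = 0 := by
      have h5 := C.tan (k + 1) hk z hz ζ
      rw [h3, inner_add_right, hY, zero_add, inner_smul_right] at h5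
      exact (mul_eq_zero.1 h5).resolve_right (tr' C hk hz)
    rw [h4, zero_smul, add_zero] at h3
    refine ⟨ζ, h3, ?_⟩
    have h6 := C.njac (k + 1) hk z hz ζ
    rw [refljac C hk' hz, h6, h3, h2, ← hK, hDD, G3_rf_invol hn]
    module

/-- There are no closed trajectories at which the normals of all the vertices but one lie, to the first
order, in one of the two subspaces. -/
theorem no_good {P Q : E →L[ℝ] E} (h : Spl P Q) (M : Set ℕ) {z : Z} (hz : z ∈ C.U)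
    (hM : ∀ k, 1 ≤ k → k < C.N →
      (k ∈ M → Q (C.n k z) = 0 ∧ ∀ ζ, Q (fderiv ℝ (C.n k) z ζ) = 0) ∧
      (k ∉ M → P (C.n k z) = 0 ∧ ∀ ζ, P (fderiv ℝ (C.n k) z ζ) = 0))
    (hcl : ∀ ζ, fderiv ℝ (C.x C.N) z ζ = C.G (fderiv ℝ (C.x 0) z ζ))
    (hP : P (C.e 0 z) ≠ 0) (hQ : Q (C.e 0 z) ≠ 0) : False := by
  obtain ⟨α, hα⟩ : ∃ α : ℝ, α = ⟪P (C.e 0 z), P (C.e 0 z)⟫_ℝ := ⟨_, rfl⟩
  obtain ⟨β, hβ⟩ : ∃ β : ℝ, β = ⟪Q (C.e 0 z), Q (C.e 0 z)⟫_ℝ := ⟨_, rfl⟩
  have hα0 : 0 < α := by rw [hα]; exact real_inner_self_pos.2 hP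
  have hβ0 : 0 < β := by rw [hβ]; exact real_inner_self_pos.2 hQ
  obtain ⟨ζ, hx0, he0⟩ := C.surj z hz 0 (-β • P (C.e 0 z) + α • Q (C.e 0 z)) (inner_zero_right _) (by
    nth_rewrite 1 [← h.add (C.e 0 z)]
    rw [inner_add_left, inner_add_right, inner_add_right, inner_smul_right, inner_smul_right,
      inner_smul_right, inner_smul_right, h.inner_PQ, h.swap.inner_PQ, ← hα, ← hβ]
    ring)
  have key : ∀ k < C.N, fderiv ℝ (C.e k) z ζ = -β • P (C.e k z) + α • Q (C.e k z) ∧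
      ∃ T c : ℝ, 0 ≤ T ∧ fderiv ℝ (C.x k) z ζ = T • fderiv ℝ (C.e k) z ζ + c • C.e k z := by
    intro k
    induction k with
    | zero => exact fun _ => ⟨he0, 0, 0, le_rfl, by rw [hx0]; simp⟩
    | succ k ih =>
      intro hk
      have hk' : k < C.N := by omega
      obtain ⟨ih1, T, c, hT, ih2⟩ := ih hk'
      obtain ⟨y, hy⟩ : ∃ y, y = fderiv ℝ (C.e k) z ζ := ⟨_, rfl⟩
      rw [← hy] at ih1 ih2
      obtain ⟨T', hT'⟩ : ∃ T' : ℝ, T' = T + C.L k z := ⟨_, rfl⟩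
      obtain ⟨c', hc'⟩ : ∃ c' : ℝ, c' = c + fderiv ℝ (C.L k) z ζ := ⟨_, rfl⟩
      have hX : fderiv ℝ (C.x (k + 1)) z ζ = T' • y + c' • C.e k z := by
        rw [stepjac C hk' hz, ih2, ← hy, hT', hc']
        module
      have hT0 : 0 ≤ T' := by rw [hT']; exact add_nonneg hT (C.Lpos k hk' z hz).le
      have htan := C.tan (k + 1) hk z hz ζ
      have hne := tr' C hk hz
      have hnn := C.nn (k + 1) hk z hz
      have hsym := C.sym (k + 1) hk z hz
      have hSn := C.Sn (k + 1) hk z hz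
      have hsur : ∀ w, ⟪C.n (k + 1) z, w⟫_ℝ = 0 → ∃ ζ', C.S (k + 1) z w =
          -fderiv ℝ (C.n (k + 1)) z ζ' := by
        intro w hw
        obtain ⟨ζ', h1, -⟩ := surj_le C hz (k + 1) hk w 0 hw (inner_zero_right _)
        exact ⟨ζ', by rw [C.njac (k + 1) hk z hz, h1, neg_neg]⟩
      have hfin : C.S (k + 1) z (fderiv ℝ (C.x (k + 1)) z ζ) = 0 ∧
          rf (C.n (k + 1) z) y = -β • P (C.e (k + 1) z) + α • Q (C.e (k + 1) z) ∧
          fderiv ℝ (C.x (k + 1)) z ζ = T' • rf (C.n (k + 1) z) y + c' • C.e (k + 1) z := by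
        rw [C.refl k hk' z]
        by_cases hkM : k + 1 ∈ M
        · obtain ⟨h1, h2⟩ := (hM (k + 1) (by omega) hk).1 hkM
          refine h.vertex h1 hnn hne hsym hSn (fun w hw => ?_) ih1 hX htan
          obtain ⟨ζ', hζ'⟩ := hsur w hw
          rw [hζ', map_neg, h2, neg_zero]
        · obtain ⟨h1, h2⟩ := (hM (k + 1) (by omega) hk).2 hkM
          obtain ⟨h3, h4, h5⟩ := h.swap.vertex (a := α) (b := -β) (T := T') (c := c') h1 hnn hne hsym
            hSn (fun w hw => by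
              obtain ⟨ζ', hζ'⟩ := hsur w hw
              rw [hζ', map_neg, h2, neg_zero]) (by rw [ih1, add_comm]) hX htan
          exact ⟨h3, by rw [h4, add_comm], h5⟩
      obtain ⟨h1, h2, h3⟩ := hfin
      have hν : fderiv ℝ (C.n (k + 1)) z ζ = 0 := by
        rw [C.njac (k + 1) hk z hz, h1, neg_zero]
      have he : fderiv ℝ (C.e (k + 1)) z ζ = rf (C.n (k + 1) z) y := by
        rw [refljac C hk' hz, hν, ← hy]
        simp
      rw [he]
      exact ⟨h2, T', c', hT0, h3⟩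
  have hN := C.hN
  obtain ⟨m, hm⟩ : ∃ m, C.N = m + 1 := ⟨C.N - 1, by omega⟩
  have hmN : m < C.N := by omega
  obtain ⟨h1, T, c, hT, h2⟩ := key m hmN
  have h3 := hcl ζ
  rw [hx0, map_zero, hm, stepjac C hmN hz, h2] at h3
  have h4 : ⟪C.e m z, fderiv ℝ (C.e m) z ζ⟫_ℝ = 0 :=
    G3_unit C.hU hz (C.de m hmN.le z hz) (C.ee m hmN) ζ
  have h5 := congrArg (fun v => ⟪v, fderiv ℝ (C.e m) z ζ⟫_ℝ) h3
  simp only [inner_add_left, inner_smul_left, h4, inner_zero_left, mul_zero, add_zero,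
    conj_trivial] at h5
  have h6 : (T + C.L m z) * ⟪fderiv ℝ (C.e m) z ζ, fderiv ℝ (C.e m) z ζ⟫_ℝ = 0 := by linarith
  have h7 : 0 < T + C.L m z := add_pos_of_nonneg_of_pos hT (C.Lpos m hmN z hz)
  have h8 := inner_self_eq_zero.1 ((mul_eq_zero.1 h6).resolve_left h7.ne')
  rw [h1] at h8
  have h9 : P (C.e m z) = 0 := by
    have h10 := congrArg P h8
    rw [map_add, map_smul, map_smul, h.PP, h.PQ, smul_zero, add_zero, map_zero] at h10
    exact (smul_eq_zero.1 h10).resolve_left (by linarith)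
  have h10 : Q (C.e m z) = 0 := by
    have h11 := congrArg Q h8
    rw [map_add, map_smul, map_smul, h.swap.PP, h.QP, smul_zero, zero_add, map_zero] at h11
    exact (smul_eq_zero.1 h11).resolve_left hα0.ne'
  have h11 := h.add (C.e m z)
  rw [h9, h10, add_zero] at h11
  have h12 := C.ee m hmN z hz
  rw [← h11, inner_zero_left] at h12
  exact zero_ne_one h12

end

end Pool.Agent.U939.IV
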