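import Pool.Agent.U939.IV.Alg

/-!
# Trajectories whose normals lie in a subspace or are orthogonal to it, all but one
-/

set_option autoImplicit false

open MeasureTheory Set Filter Topology
open scoped InnerProductSpace
open Pool.Agent.H721R2.Quart Pool.Agent.H721R2.Ivrii Pool.Agent.TH746

namespace Pool.Agent.U939.IV

section
variable {E Z : Type*} [NormedAddCommGroup E] [InnerProductSpace ℝ E] [FiniteDimensional ℝ E]
  [NormedAddCommGroup Z] [NormedSpace ℝ Z] [FiniteDimensional ℝ Z] [MeasurableSpace Z]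
  [BorelSpace Z] (C : Chn E Z)

/-- the closed trajectories with the given types of the normals -/
def SplA (P Q : E →L[ℝ] E) (M : Set ℕ) : Set Z :=
  {z | z ∈ C.A univ ∧ ∀ k, 1 ≤ k → k < C.N →
    (k ∈ M → Q (C.n k z) = 0) ∧ (k ∉ M → P (C.n k z) = 0)}

theorem comp_zero (μ : Measure Z) [μ.IsAddHaarMeasure] {B : Set Z} (hB : MeasurableSet B)
    (P : E →L[ℝ] E) {f : Z → E} (hf : ∀ z ∈ B, DifferentiableAt ℝ f z) :
    ∃ B' ⊆ B, μ (B \ B') = 0 ∧ ∀ z ∈ B', P (f z) = 0 → ∀ ζ, P (fderiv ℝ f z ζ) = 0 := by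
  obtain ⟨B', h1, -, h2, h3⟩ := ae_zero μ hB (f := fun z => P (f z))
    (fun z hz => P.differentiableAt.comp z (hf z hz))
  refine ⟨B', h1, h2, fun z hz h0 ζ => ?_⟩
  have h4 := h3 z hz h0
  have h5 := (P.hasFDerivAt.comp z (hf z (h1 hz)).hasFDerivAt).fderiv
  have h6 : (fun z => P (f z)) = P ∘ f := rfl
  rw [h6, h5] at h4
  have h7 := congrArg (fun T : Z →L[ℝ] E => T ζ) h4
  exact h7

theorem splA_null (μ : Measure Z) [μ.IsAddHaarMeasure] {P Q : E →L[ℝ] E} (h : Spl P Q)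
    (hP : ∃ v, P v ≠ 0) (hQ : ∃ v, Q v ≠ 0) (M : Set ℕ) : μ (SplA C P Q M) = 0 := by
  classical
  obtain ⟨B, hB, hBm, hBn, hd⟩ := C.exists_good μ univ
  have hN := C.hN
  have hU : ∀ z ∈ B, z ∈ C.U := fun z hz => (hB hz).1
  have h1 : ∀ k : ℕ, ∃ B' ⊆ B, μ (B \ B') = 0 ∧ (k < C.N → ∀ z ∈ B',
      (Q (C.n k z) = 0 → ∀ ζ, Q (fderiv ℝ (C.n k) z ζ) = 0) ∧
      (P (C.n k z) = 0 → ∀ ζ, P (fderiv ℝ (C.n k) z ζ) = 0)) := by
    intro k
    by_cases hk : k < C.N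
    · obtain ⟨B1, s1, n1, g1⟩ := comp_zero μ hBm Q (f := C.n k)
        (fun z hz => C.dn k hk.le z (hU z hz))
      obtain ⟨B2, s2, n2, g2⟩ := comp_zero μ hBm P (f := C.n k)
        (fun z hz => C.dn k hk.le z (hU z hz))
      refine ⟨B1 ∩ B2, fun z hz => s1 hz.1, ?_, fun _ z hz => ⟨g1 z hz.1, g2 z hz.2⟩⟩
      rw [Set.sdiff_inter]
      exact measure_union_null n1 n2
    · exact ⟨B, le_rfl, by simp, fun h => absurd h hk⟩
  choose Bk sk nk gk using h1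
  obtain ⟨BP, sP, nP, gP⟩ := comp_zero μ hBm P (f := C.e 0)
    (fun z hz => C.de 0 hN.le z (hU z hz))
  obtain ⟨BQ, sQ, nQ, gQ⟩ := comp_zero μ hBm Q (f := C.e 0)
    (fun z hz => C.de 0 hN.le z (hU z hz))
  refine measure_mono_null (t := ((C.A univ \ B) ∪ ⋃ k, (B \ Bk k)) ∪ ((B \ BP) ∪ (B \ BQ))) ?_
    (measure_union_null (measure_union_null hBn (measure_iUnion_null nk))
      (measure_union_null nP nQ))
  rintro z ⟨hzA, hz⟩
  by_contra hcon
  simp only [mem_union, Set.mem_sdiff, mem_iUnion, not_or, not_and, not_not, not_exists] at hcon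
  obtain ⟨⟨c1, c2⟩, c3, c4⟩ := hcon
  have hzB : z ∈ B := c1 hzA
  have hzU := hU z hzB
  have hzk : ∀ k, z ∈ Bk k := fun k => c2 k hzB
  have hzP : z ∈ BP := c3 hzB
  have hzQ : z ∈ BQ := c4 hzB
  -- the components of the direction do not vanish
  have hne : ∀ {P Q : E →L[ℝ] E}, Spl P Q → (∃ v, P v ≠ 0) →
      (P (C.e 0 z) = 0 → ∀ ζ, P (fderiv ℝ (C.e 0) z ζ) = 0) → P (C.e 0 z) ≠ 0 := by
    intro P Q h hP hg h0
    obtain ⟨v, hv⟩ := hP
    obtain ⟨ζ, -, h2⟩ := C.surj z hzU 0 (P v) (inner_zero_right _) (by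
      rw [← h.symP, h0, inner_zero_left])
    apply hv
    have h3 := hg h0 ζ
    rwa [h2, h.PP] at h3
  refine no_good C h M hzU (fun k hk1 hk => ⟨fun hkM => ?_, fun hkM => ?_⟩) (hd z hzB).1
    (hne h hP (gP z hzP)) (hne h.swap hQ (gQ z hzQ))
  · have h2 := (hz k hk1 hk).1 hkM
    exact ⟨h2, (gk k hk z (hzk k)).1 h2⟩
  · have h2 := (hz k hk1 hk).2 hkM
    exact ⟨h2, (gk k hk z (hzk k)).2 h2⟩

end

section D
variable {E : Type*} [NormedAddCommGroup E] [InnerProductSpace ℝ E] [FiniteDimensional ℝ E]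
  [MeasurableSpace E] [BorelSpace E]

/-- the trajectories with the given types of the bounces `1, ..., n - 1` -/
def Wc (Ω : Set E) (g : E ≃ᵃⁱ[ℝ] E) (P Q : E →L[ℝ] E) (n : ℕ) (M : Set ℕ) :
    Set ((ℕ → E) × (ℕ → E)) :=
  {w | OrbitMod Ω g n w.1 w.2 ∧ ∀ k, k + 1 < n →
    (k + 1 ∈ M → Q (w.2 (k + 1) - w.2 k) = 0) ∧ (k + 1 ∉ M → P (w.2 (k + 1) - w.2 k) = 0)}

theorem loc_null {Ω : Set E} {g : E ≃ᵃⁱ[ℝ] E} (hg : g ⁻¹' Ω = Ω) {P Q : E →L[ℝ] E} (h : Spl P Q)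
    (hP : ∃ v, P v ≠ 0) (hQ : ∃ v, Q v ≠ 0) {n : ℕ} {p u : ℕ → E} (ho : OrbitMod Ω g n p u)
    (M : Set ℕ) (m : ℕ) (hm : m ≤ n) :
    ∃ Y : Set (E × E), μH[(2 * Module.finrank ℝ E - 2 : ℕ)] Y = 0 ∧
      ∀ᶠ w : (ℕ → E) × (ℕ → E) in 𝓝 (p, u), w ∈ Wc Ω g P Q n M → (w.1 m, w.2 m) ∈ Y := by
  obtain ⟨a, b, C, ha, hb, hCN, hCg, hLip, hev⟩ := exists_chn hg ho
  have hfr : Module.finrank ℝ ((ℝ ∙ a)ᗮ × (ℝ ∙ b)ᗮ) = 2 * Module.finrank ℝ E - 2 := by
    have h1 := Submodule.finrank_add_finrank_orthogonal (ℝ ∙ a)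
    have h2 := Submodule.finrank_add_finrank_orthogonal (ℝ ∙ b)
    rw [finrank_span_singleton ha] at h1
    rw [finrank_span_singleton hb] at h2
    rw [Module.finrank_prod]
    omega
  have h0 := splA_null C (μH[Module.finrank ℝ ((ℝ ∙ a)ᗮ × (ℝ ∙ b)ᗮ)]) h hP hQ M
  rw [hfr] at h0
  obtain ⟨K, hK⟩ := hLip m hm
  refine ⟨(fun z => (C.x m z, C.e m z)) '' (SplA C P Q M), ?_, ?_⟩
  · have hK' : LipschitzOnWith K (fun z => (C.x m z, C.e m z)) (SplA C P Q M) :=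
      hK.mono fun z hz => hz.1.1
    have h1 := hK'.hausdorffMeasure_image_le
      (d := ((2 * Module.finrank ℝ E - 2 : ℕ) : ℝ)) (Nat.cast_nonneg _)
    rw [h0, mul_zero] at h1
    exact nonpos_iff_eq_zero.mp h1
  · filter_upwards [hev] with w hw hor
    obtain ⟨z, hzU, hz1, hz2, hz3⟩ := hw hor.1
    refine ⟨z, ⟨⟨hzU, ?_, ?_, hz2, ?_⟩, ?_⟩, ?_⟩
    · rw [hCN, (hz1 n le_rfl).1, (hz1 0 (Nat.zero_le _)).1, hCg]
      have := hor.1.perp 0
      rwa [zero_add] at this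
    · rw [hCN, (hz1 n le_rfl).2, (hz1 0 (Nat.zero_le _)).2, C.G_apply, hCg]
      have := hor.1.peru 0
      rwa [zero_add] at this
    · intro k hk hkM
      exact absurd (mem_univ k) hkM
    · intro k hk1 hk
      obtain ⟨j, rfl⟩ : ∃ j, k = j + 1 := ⟨k - 1, by omega⟩
      have hj : j < C.N := by omega
      have htr := tr' C hk hzU
      have e1 : w.2 (j + 1) - w.2 j =
          (-(2 * ⟪C.n (j + 1) z, C.e j z⟫_ℝ)) • C.n (j + 1) z := by
        rw [← (hz1 (j + 1) (by omega)).2, ← (hz1 j (by omega)).2, C.refl j hj z]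
        unfold rf
        module
      have h2 := hor.2 j (by omega)
      rw [e1] at h2
      refine ⟨fun hM => ?_, fun hM => ?_⟩
      · have h3 := h2.1 hM
        rw [map_smul] at h3
        refine (smul_eq_zero.1 h3).resolve_left (neg_ne_zero.2 (mul_ne_zero two_ne_zero htr))
      · have h3 := h2.2 hM
        rw [map_smul] at h3
        refine (smul_eq_zero.1 h3).resolve_left (neg_ne_zero.2 (mul_ne_zero two_ne_zero htr))
    · simp only
      rw [(hz1 m hm).1, (hz1 m hm).2]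

theorem wc_null {Ω : Set E} {g : E ≃ᵃⁱ[ℝ] E} (hg : g ⁻¹' Ω = Ω) {P Q : E →L[ℝ] E} (h : Spl P Q)
    (hP : ∃ v, P v ≠ 0) (hQ : ∃ v, Q v ≠ 0) {n : ℕ} (M : Set ℕ) (m : ℕ) (hm : m ≤ n) :
    μH[(2 * Module.finrank ℝ E - 2 : ℕ)]
      ((fun w : (ℕ → E) × (ℕ → E) => (w.1 m, w.2 m)) '' Wc Ω g P Q n M) = 0 := by
  apply null_of_locally_null
  rintro ⟨p, u⟩ ⟨ho, -⟩
  exact loc_null hg h hP hQ ho M m hm

/-- The boundary of the table is regular at `q`, and its normal at `q` is in `V` or orthogonal to `V`. -/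
def SplitAt (V : Submodule ℝ E) (Ω : Set E) (q : E) : Prop :=
  ∃ F : E → ℝ, LocalDef Ω q F ∧ (gradient F q ∈ V ∨ gradient F q ∈ Vᗮ)

/-- The phase points `(q, v)` whose trajectory is periodic modulo some isometry `g ∈ Γ`, with any number
`n ≥ 1` of bounces in a period, all of which but at most one are at points where the normal is in `V` or
orthogonal to `V`: for some `a < n` this holds for the bounces `p k`, `a < k < a + n`. -/
def PerSplit (V : Submodule ℝ E) (Γ : Set (E ≃ᵃⁱ[ℝ] E)) (Ω : Set E) : Set (E × E) :=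
  {z | ∃ g ∈ Γ, ∃ (n : ℕ) (p u : ℕ → E), OrbitMod Ω g n p u ∧ (p 0, u 0) = z ∧
    ∃ a < n, ∀ k, a < k → k < a + n → SplitAt V Ω (p k)}

omit [FiniteDimensional ℝ E] [MeasurableSpace E] [BorelSpace E] in
theorem spl_of [FiniteDimensional ℝ E] (V : Submodule ℝ E) : Spl V.starProjection Vᗮ.starProjection := by
  refine ⟨fun v => V.starProjection_add_starProjection_orthogonal v,
    fun v w => V.starProjection_isSymmetric v w, fun v w => Vᗮ.starProjection_isSymmetric v w,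
    fun v => ?_, fun v => ?_⟩
  · rw [Submodule.starProjection_apply_eq_zero_iff]
    exact Submodule.starProjection_apply_mem _ _
  · rw [Submodule.starProjection_apply_eq_zero_iff]
    exact V.le_orthogonal_orthogonal (Submodule.starProjection_apply_mem _ _)

omit [MeasurableSpace E] [BorelSpace E] in
theorem split_diff {V : Submodule ℝ E} {Ω : Set E} {q v q' v' : E} (h : Step Ω q v q' v')
    (hs : SplitAt V Ω q') :
    Vᗮ.starProjection (v' - v) = 0 ∨ V.starProjection (v' - v) = 0 := by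
  obtain ⟨F, hF, hV⟩ := hs
  obtain ⟨h1, -, -⟩ := step_refl' h hF
  have h2 : ∃ c : ℝ, v' - v = c • gradient F q' := by
    rw [h1]
    unfold rf dir
    exact ⟨-(2 * ⟪‖gradient F q'‖⁻¹ • gradient F q', v⟫_ℝ) * ‖gradient F q'‖⁻¹, by module⟩
  obtain ⟨c, hc⟩ := h2
  rcases hV with h3 | h3
  · left
    rw [Submodule.starProjection_apply_eq_zero_iff, hc]
    exact V.le_orthogonal_orthogonal (V.smul_mem c h3)
  · right
    rw [Submodule.starProjection_apply_eq_zero_iff, hc]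
    exact Vᗮ.smul_mem c h3

/-- the main theorem -/
theorem perSplit_null (V : Submodule ℝ E) (hV0 : V ≠ ⊥) (hV1 : V ≠ ⊤) (Ω : Set E)
    (Γ : Set (E ≃ᵃⁱ[ℝ] E)) (hΓ : Γ.Countable) (hinv : ∀ g ∈ Γ, g ⁻¹' Ω = Ω) :
    μH[(2 * Module.finrank ℝ E - 2 : ℕ)] (PerSplit V Γ Ω) = 0 := by
  classical
  have h := spl_of V
  have hP : ∃ v, V.starProjection v ≠ 0 := by
    obtain ⟨v, hv, hv0⟩ := (Submodule.ne_bot_iff V).1 hV0
    exact ⟨v, by rwa [Submodule.starProjection_eq_self_iff.2 hv]⟩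
  have hQ : ∃ v, Vᗮ.starProjection v ≠ 0 := by
    have h1 : Vᗮ ≠ ⊥ := fun h2 => hV1 (by
      have := V.orthogonal_eq_bot_iff.1 h2
      exact this)
    obtain ⟨v, hv, hv0⟩ := (Submodule.ne_bot_iff _).1 h1
    exact ⟨v, by rwa [Submodule.starProjection_eq_self_iff.2 hv]⟩
  refine measure_mono_null (t := ⋃ g ∈ Γ, ⋃ n : ℕ, ⋃ M : Finset ℕ, ⋃ m : ℕ, ⋃ (_ : m ≤ n),
    {z : E × E | (g z.1, g.linearIsometryEquiv z.2) ∈
      (fun w : (ℕ → E) × (ℕ → E) => (w.1 m, w.2 m)) ''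
        Wc Ω g V.starProjection Vᗮ.starProjection n (M : Set ℕ)}) ?_ ?_
  · rintro z ⟨g, hgΓ, n, p, u, ho, rfl, a, han, ha⟩
    obtain ⟨M, hM⟩ : ∃ M : Finset ℕ, M = (Finset.range n).filter fun k =>
      Vᗮ.starProjection (u (k - 1 + 1 + a) - u (k - 1 + a)) = 0 := ⟨_, rfl⟩
    refine mem_iUnion₂.2 ⟨g, hgΓ, mem_iUnion.2 ⟨n, mem_iUnion.2 ⟨M, mem_iUnion.2 ⟨n - a,
      mem_iUnion.2 ⟨by omega, ?_⟩⟩⟩⟩⟩
    refine ⟨(fun k => p (k + a), fun k => u (k + a)), ⟨OrbitMod.shift' ho a, ?_⟩, ?_⟩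
    · intro k hk
      have hs := split_diff (ho.step (k + a)) (ha (k + a + 1) (by omega) (by omega))
      have e : k + a + 1 = k + 1 + a := by ring
      rw [e] at hs
      simp only [hM, Finset.mem_coe, Finset.mem_filter, Finset.mem_range]
      refine ⟨fun hk' => hk'.2, fun hk' => ?_⟩
      rcases hs with hs | hs
      · exact absurd ⟨hk, hs⟩ hk'
      · exact hs
    · have e : n - a + a = 0 + n := by omega
      simp only [e, ho.perp, ho.peru]
  · refine (measure_biUnion_null_iff hΓ).2 fun g hgΓ => measure_iUnion_null fun n =>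
      measure_iUnion_null fun M => measure_iUnion_null fun m => measure_iUnion_null fun hm => ?_
    exact pull g _ _ (wc_null (hinv g hgΓ) h hP hQ _ m hm)

end D

end Pool.Agent.U939.IV
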