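import Pool.Agent.U939.IV.Main

/-!
# Product tables, and systems of particles
-/

set_option autoImplicit false

open MeasureTheory Set Filter Topology
open scoped InnerProductSpace
open Pool.Agent.H721R2.Quart Pool.Agent.H721R2.Ivrii Pool.Agent.TH746

namespace Pool.Agent.U939.IV

section D
variable {E : Type*} [NormedAddCommGroup E] [InnerProductSpace ℝ E] [FiniteDimensional ℝ E]

theorem sign_dir {F : E → ℝ} {q v : E} (hF : DifferentiableAt ℝ F q) (h0 : F q = 0)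
    (hv : ⟪gradient F q, v⟫_ℝ < 0) : ∀ᶠ r : ℝ in 𝓝[>] 0, F (q + r • v) < 0 := by
  have h1 : HasDerivAt (fun r : ℝ => F (q + r • v)) ⟪gradient F q, v⟫_ℝ 0 := by
    have h2 : HasFDerivAt F (fderiv ℝ F q) (q + (0 : ℝ) • v) := by
      rw [zero_smul, add_zero]; exact hF.hasFDerivAt
    have h3 : HasDerivAt (fun r : ℝ => q + r • v) v 0 := by
      simpa using ((hasDerivAt_id (0 : ℝ)).smul_const v).const_add q
    have h4 := h2.comp_hasDerivAt (0 : ℝ) h3
    rw [inner_gradient_left]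
    exact h4
  have h5 := h1.tendsto_slope_zero_right
  filter_upwards [h5.eventually_lt_const hv, self_mem_nhdsWithin] with r h6 h7
  simp only [zero_add, zero_smul, add_zero, h0, sub_zero, smul_eq_mul] at h6
  have h8 : (0 : ℝ) < r⁻¹ := inv_pos.2 h7
  by_contra hcon
  push Not at hcon
  exact absurd h6 (not_lt.2 (mul_nonneg h8.le hcon))

theorem sign_dir' {F : E → ℝ} {q v : E} (hF : DifferentiableAt ℝ F q) (h0 : F q = 0)
    (hv : 0 < ⟪gradient F q, v⟫_ℝ) : ∀ᶠ r : ℝ in 𝓝[>] 0, 0 < F (q + r • v) := by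
  have h1 : ⟪gradient (fun x => -F x) q, v⟫_ℝ < 0 := by
    rw [inner_gradient_left] at hv ⊢
    have h2 : fderiv ℝ (fun x => -F x) q = -fderiv ℝ F q := fderiv_neg
    rw [h2]
    simpa using hv
  filter_upwards [sign_dir hF.neg (by simp [h0]) h1] with r hr
  have hr' : -F (q + r • v) < 0 := hr
  linarith

/-- the normals of a product table -/
theorem prod_normal (V : Submodule ℝ E) {A B Ω : Set E}
    (hΩ : Ω = {x | V.starProjection x ∈ A ∧ Vᗮ.starProjection x ∈ B}) {q : E} {F : E → ℝ}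
    (hF : LocalDef Ω q F) : gradient F q ∈ V ∨ gradient F q ∈ Vᗮ := by
  have h := spl_of V
  obtain ⟨P, hP⟩ : ∃ P, P = V.starProjection := ⟨_, rfl⟩
  obtain ⟨Q, hQ⟩ : ∃ Q, Q = Vᗮ.starProjection := ⟨_, rfl⟩
  rw [← hP, ← hQ] at h hΩ
  obtain ⟨G, hG⟩ : ∃ G, G = gradient F q := ⟨_, rfl⟩
  by_contra hcon
  rw [not_or, ← hG] at hcon
  obtain ⟨hc1, hc2⟩ := hcon
  have ha : P G ≠ 0 := by
    rw [hP]
    exact fun h0 => hc2 ((Submodule.starProjection_apply_eq_zero_iff _).1 h0)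
  have hb : Q G ≠ 0 := by
    intro h0
    apply hc1
    have h1 := h.add G
    rw [h0, add_zero, hP] at h1
    exact Submodule.starProjection_eq_self_iff.1 h1
  obtain ⟨α, hα⟩ : ∃ α : ℝ, α = ⟪P G, P G⟫_ℝ := ⟨_, rfl⟩
  obtain ⟨β, hβ⟩ : ∃ β : ℝ, β = ⟪Q G, Q G⟫_ℝ := ⟨_, rfl⟩
  have hα0 : 0 < α := by rw [hα]; exact real_inner_self_pos.2 ha
  have hβ0 : 0 < β := by rw [hβ]; exact real_inner_self_pos.2 hb
  have hGa : ⟪G, P G⟫_ℝ = α := by
    nth_rewrite 1 [← h.add G]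
    rw [inner_add_left, h.swap.inner_PQ, ← hα, add_zero]
  have hGb : ⟪G, Q G⟫_ℝ = β := by
    nth_rewrite 1 [← h.add G]
    rw [inner_add_left, h.inner_PQ, ← hβ, zero_add]
  have hd : DifferentiableAt ℝ F q := hF.smooth.differentiableAt (by norm_num)
  obtain ⟨v1, hv1⟩ : ∃ v1 : E, v1 = (-(2 * β / α)) • P G + Q G := ⟨_, rfl⟩
  obtain ⟨v2, hv2⟩ : ∃ v2 : E, v2 = P G + (-(2 * α / β)) • Q G := ⟨_, rfl⟩
  have i1 : ⟪gradient F q, v1⟫_ℝ < 0 := by
    rw [← hG, hv1, inner_add_right, inner_smul_right, hGa, hGb]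
    have : -(2 * β / α) * α = -(2 * β) := by field_simp
    rw [this]; linarith
  have i2 : ⟪gradient F q, v2⟫_ℝ < 0 := by
    rw [← hG, hv2, inner_add_right, inner_smul_right, hGa, hGb]
    have : -(2 * α / β) * β = -(2 * α) := by field_simp
    rw [this]; linarith
  have i3 : 0 < ⟪gradient F q, G⟫_ℝ := by
    rw [← hG]
    nth_rewrite 2 [← h.add G]
    rw [inner_add_right, hGa, hGb]; linarith
  have ht : ∀ v : E, Tendsto (fun r : ℝ => q + r • v) (𝓝[>] 0) (𝓝 q) := by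
    intro v
    have h1 : Tendsto (fun r : ℝ => q + r • v) (𝓝 0) (𝓝 (q + (0 : ℝ) • v)) :=
      (continuous_const.add (continuous_id.smul continuous_const)).tendsto 0
    rw [zero_smul, add_zero] at h1
    exact h1.mono_left nhdsWithin_le_nhds
  obtain ⟨r, e1, e2, e3, m1, m2, m3⟩ := ((sign_dir hd hF.zero i1).and
    ((sign_dir hd hF.zero i2).and ((sign_dir' hd hF.zero i3).and
    (((ht v1).eventually hF.mem).and (((ht v2).eventually hF.mem).and
    ((ht G).eventually hF.mem)))))).exists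
  have x1 := m1.2 e1
  have x2 := m2.2 e2
  rw [hΩ] at x1 x2
  have x3 : q + r • G ∈ Ω := by
    rw [hΩ]
    refine ⟨?_, ?_⟩
    · have e : P (q + r • G) = P (q + r • v2) := by
        rw [hv2]
        simp only [map_add, map_smul, h.PP, h.PQ, smul_zero, add_zero]
      rw [e]; exact x2.1
    · have e : Q (q + r • G) = Q (q + r • v1) := by
        rw [hv1]
        simp only [map_add, map_smul, h.swap.PP, h.QP, smul_zero, zero_add]
      rw [e]; exact x1.2
  have x4 := m3.1 x3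
  linarith

/-- The phase points `(q, v)` whose trajectory is periodic modulo some isometry `g ∈ Γ`, with any number
`n ≥ 1` of bounces in a period. -/
def Per (Γ : Set (E ≃ᵃⁱ[ℝ] E)) (Ω : Set E) : Set (E × E) :=
  {z | ∃ g ∈ Γ, ∃ (n : ℕ) (p u : ℕ → E), OrbitMod Ω g n p u ∧ (p 0, u 0) = z}

/-- Ivrii's conjecture for product tables -/
theorem per_prod_null [MeasurableSpace E] [BorelSpace E] (V : Submodule ℝ E) (hV0 : V ≠ ⊥)
    (hV1 : V ≠ ⊤) {A B Ω : Set E}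
    (hΩ : Ω = {x | V.starProjection x ∈ A ∧ Vᗮ.starProjection x ∈ B})
    (Γ : Set (E ≃ᵃⁱ[ℝ] E)) (hΓ : Γ.Countable) (hinv : ∀ g ∈ Γ, g ⁻¹' Ω = Ω) :
    μH[(2 * Module.finrank ℝ E - 2 : ℕ)] (Per Γ Ω) = 0 := by
  refine measure_mono_null ?_ (perSplit_null V hV0 hV1 Ω Γ hΓ hinv)
  rintro z ⟨g, hg, n, p, u, ho, hz⟩
  refine ⟨g, hg, n, p, u, ho, hz, 0, ho.pos, fun k hk _ => ?_⟩
  obtain ⟨j, rfl⟩ : ∃ j, k = j + 1 := ⟨k - 1, by omega⟩
  obtain ⟨t, -, -, -, F, hF, -⟩ := ho.step j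
  exact ⟨F, hF, prod_normal V hΩ hF⟩

end D

/-! ### systems of particles -/

section P
variable {E : Type*} [NormedAddCommGroup E] [InnerProductSpace ℝ E] [FiniteDimensional ℝ E]
  {ι : Type*}

/-- The positions of the particle `i` are the vectors of `W i`. The boundary of the set `Ω` of
configurations is regular at `q`, and the collision which takes place there is inside one of the groups
`I`, `Iᶜ`: the normal is in the sum of the `W i`, `i ∈ I`, or in the sum of the `W i`, `i ∉ I`. -/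
def Inside (W : ι → Submodule ℝ E) (Ω : Set E) (I : Set ι) (q : E) : Prop :=
  ∃ F : E → ℝ, LocalDef Ω q F ∧ (gradient F q ∈ ⨆ i ∈ I, W i ∨ gradient F q ∈ ⨆ i ∈ Iᶜ, W i)

/-- The phase points whose trajectory is periodic modulo some isometry `g ∈ Γ`, with any number `n ≥ 1` of
collisions in a period, such that for some division of the particles into two nonempty groups there is at
most one collision between the groups in a period: for some `a < n` the collisions `p k`,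
`a < k < a + n`, are inside the groups. -/
def PerGroups (W : ι → Submodule ℝ E) (Γ : Set (E ≃ᵃⁱ[ℝ] E)) (Ω : Set E) : Set (E × E) :=
  {z | ∃ g ∈ Γ, ∃ (n : ℕ) (p u : ℕ → E), OrbitMod Ω g n p u ∧ (p 0, u 0) = z ∧
    ∃ I : Set ι, I.Nonempty ∧ Iᶜ.Nonempty ∧ ∃ a < n, ∀ k, a < k → k < a + n → Inside W Ω I (p k)}

omit [FiniteDimensional ℝ E] in
theorem sup_orth {W : ι → Submodule ℝ E} (hW : ∀ i j, i ≠ j → W i ⟂ W j) {I J : Set ι}
    (hIJ : ∀ i ∈ I, i ∉ J) : (⨆ i ∈ I, W i) ⟂ (⨆ i ∈ J, W i) := by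
  rw [Submodule.isOrtho_iSup_left]
  intro i
  rw [Submodule.isOrtho_iSup_left]
  intro hi
  rw [Submodule.isOrtho_iSup_right]
  intro j
  rw [Submodule.isOrtho_iSup_right]
  intro hj
  exact hW i j fun h => hIJ i hi (h ▸ hj)

theorem inside_split {W : ι → Submodule ℝ E} (hW : ∀ i j, i ≠ j → W i ⟂ W j) {Ω : Set E} {I : Set ι}
    {q : E} (h : Inside W Ω I q) : SplitAt (⨆ i ∈ I, W i) Ω q := by
  obtain ⟨F, hF, h1 | h1⟩ := h
  · exact ⟨F, hF, Or.inl h1⟩
  · refine ⟨F, hF, Or.inr ?_⟩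
    exact (sup_orth hW (I := I) (J := Iᶜ) (fun i hi hi' => hi' hi)).ge h1

theorem perGroups_null [MeasurableSpace E] [BorelSpace E] [Finite ι] {W : ι → Submodule ℝ E}
    (hW0 : ∀ i, W i ≠ ⊥) (hW : ∀ i j, i ≠ j → W i ⟂ W j)
    (Γ : Set (E ≃ᵃⁱ[ℝ] E)) (Ω : Set E) (hΓ : Γ.Countable) (hinv : ∀ g ∈ Γ, g ⁻¹' Ω = Ω) :
    μH[(2 * Module.finrank ℝ E - 2 : ℕ)] (PerGroups W Γ Ω) = 0 := by
  refine measure_mono_null (t := ⋃ I : Set ι, ⋃ (_ : I.Nonempty ∧ Iᶜ.Nonempty),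
    PerSplit (⨆ i ∈ I, W i) Γ Ω) ?_ ?_
  · rintro z ⟨g, hg, n, p, u, ho, hz, I, hI, hI', a, ha, hk⟩
    exact mem_iUnion₂.2 ⟨I, ⟨hI, hI'⟩, g, hg, n, p, u, ho, hz, a, ha,
      fun k h1 h2 => inside_split hW (hk k h1 h2)⟩
  · refine (measure_iUnion_null fun I => measure_iUnion_null fun hI => ?_)
    obtain ⟨⟨i, hi⟩, ⟨i', hi'⟩⟩ := hI
    have hle : ∀ (J : Set ι) (j : ι), j ∈ J → W j ≤ ⨆ i ∈ J, W i := fun J j hj =>
      le_iSup₂_of_le j hj le_rfl
    refine perSplit_null _ (fun h => ?_) (fun h => ?_) Ω Γ hΓ hinv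
    · exact hW0 i (le_bot_iff.1 (h ▸ hle I i hi))
    · have h1 := sup_orth hW (I := I) (J := Iᶜ) (fun i hi hi' => hi' hi)
      rw [h, Submodule.isOrtho_top_left] at h1
      exact hW0 i' (le_bot_iff.1 (h1 ▸ hle Iᶜ i' hi'))

end P

end Pool.Agent.U939.IV
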