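import Pool.Agent.TH318.IvK

/-!
# The trace form of the Lyapunov inequality: linear algebra
-/

set_option autoImplicit false

open Finset
open scoped InnerProductSpace

namespace Pool.Agent.U939.IV.Tr

section
variable {W H : Type*} [AddCommGroup W] [Module ℝ W] [NormedAddCommGroup H] [InnerProductSpace ℝ H]

/-- Bessel's inequality for one functional -/
theorem bessel (ι : W →ₗ[ℝ] H) {m : ℕ} (δ : Fin m → W) (ho : Orthonormal ℝ (fun i => ι (δ i)))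
    (φ : W →ₗ[ℝ] ℝ) {c : ℝ} (hc0 : 0 ≤ c) (hc : ∀ w, φ w ^ 2 ≤ c * ‖ι w‖ ^ 2) :
    ∑ i, φ (δ i) ^ 2 ≤ c := by
  obtain ⟨S, hS⟩ : ∃ S : ℝ, S = ∑ i, φ (δ i) ^ 2 := ⟨_, rfl⟩
  have h1 := hc (∑ i, φ (δ i) • δ i)
  have h2 : φ (∑ i, φ (δ i) • δ i) = S := by
    rw [map_sum, hS]
    refine sum_congr rfl fun i _ => ?_
    rw [map_smul, smul_eq_mul]; ring
  have h3 : ‖ι (∑ i, φ (δ i) • δ i)‖ ^ 2 = S := by
    rw [map_sum, ← real_inner_self_eq_norm_sq]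
    simp only [map_smul]
    rw [ho.inner_sum]
    rw [hS]
    refine sum_congr rfl fun i _ => ?_
    simp only [conj_trivial]
    ring
  rw [h2, h3] at h1
  rw [← hS]
  have hS0 : 0 ≤ S := by rw [hS]; exact sum_nonneg fun i _ => sq_nonneg _
  rcases hS0.eq_or_lt with h | h
  · rw [← h]; exact hc0
  · exact le_of_mul_le_mul_right (by nlinarith) h

theorem exists_on [FiniteDimensional ℝ W] (ι : W →ₗ[ℝ] H) (hι : Function.Injective ι)
    (K : Submodule ℝ W) :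
    ∃ δ : Fin (Module.finrank ℝ K) → W, (∀ i, δ i ∈ K) ∧ Orthonormal ℝ (fun i => ι (δ i)) := by
  have h1 : Module.finrank ℝ (K.map ι) = Module.finrank ℝ K :=
    (LinearEquiv.finrank_eq (Submodule.equivMapOfInjective ι hι K)).symm
  have b := stdOrthonormalBasis ℝ (K.map ι)
  rw [h1] at b
  have h2 : ∀ i, ∃ w ∈ K, ι w = (b i : H) := fun i => (Submodule.mem_map).1 (b i).2
  choose δ hδ hδb using h2
  refine ⟨δ, hδ, ?_⟩
  have h3 : (fun i => ι (δ i)) = fun i => ((K.map ι).subtypeₗᵢ (b i)) := by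
    funext i; rw [hδb]; rfl
  rw [h3]
  exact b.orthonormal.comp_linearIsometry _

end

section
variable {W : Type*} [NormedAddCommGroup W] [InnerProductSpace ℝ W]

theorem cs_vec (S : Finset ℕ) (L : ℕ → ℝ) (v : ℕ → W) (hL : ∀ j ∈ S, 0 ≤ L j) :
    ‖∑ j ∈ S, L j • v j‖ ^ 2 ≤ (∑ j ∈ S, L j) * ∑ j ∈ S, L j * ‖v j‖ ^ 2 := by
  have h1 : ‖∑ j ∈ S, L j • v j‖ ≤ ∑ j ∈ S, L j * ‖v j‖ := by
    refine (norm_sum_le _ _).trans (le_of_eq (sum_congr rfl fun j hj => ?_))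
    rw [norm_smul, Real.norm_eq_abs, abs_of_nonneg (hL j hj)]
  have h2 : (∑ j ∈ S, L j * ‖v j‖) ^ 2 ≤ (∑ j ∈ S, L j) * ∑ j ∈ S, L j * ‖v j‖ ^ 2 :=
    sum_sq_le_sum_mul_sum_of_sq_eq_mul S (fun j hj => hL j hj)
      (fun j hj => mul_nonneg (hL j hj) (sq_nonneg _)) (fun j _ => by ring)
  exact (pow_le_pow_left₀ (norm_nonneg _) h1 2).trans h2

/-- the displacement is bounded by the energy -/
theorem disp_le {N : ℕ} {L : ℕ → ℝ} (hL : ∀ k < N, 0 < L k) {A B : ℕ → W}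
    (A0 : A 0 = 0) (stp : ∀ k < N, A (k + 1) = A k + L k • B k) (AN : A N = 0) {k : ℕ}
    (hk : k ≤ N) :
    (∑ j ∈ range N, L j) * ‖A k‖ ^ 2 ≤
      ((∑ j ∈ range k, L j) * (∑ j ∈ range N, L j - ∑ j ∈ range k, L j)) *
        ∑ j ∈ range N, L j * ‖B j‖ ^ 2 := by
  have h1 : ∀ k ≤ N, A k = ∑ j ∈ range k, L j • B j := by
    intro k
    induction k with
    | zero => intro _; rw [A0]; simp
    | succ k ih =>
      intro hk
      rw [stp k hk, ih (by omega), sum_range_succ]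
  have h2 : A k = -∑ j ∈ Ico k N, L j • B j := by
    rw [sum_Ico_eq_sub _ hk, ← h1 k hk, ← h1 N le_rfl, AN]
    simp
  have e1 := cs_vec (range k) L B (fun j hj => (hL j (by have := mem_range.1 hj; omega)).le)
  have e2 := cs_vec (Ico k N) L B (fun j hj => (hL j (mem_Ico.1 hj).2).le)
  rw [← h1 k hk] at e1
  rw [← norm_neg, ← h2] at e2
  rw [sum_Ico_eq_sub _ hk, sum_Ico_eq_sub _ hk] at e2
  have b1 : 0 ≤ ∑ j ∈ range k, L j :=
    sum_nonneg fun j hj => (hL j (by have := mem_range.1 hj; omega)).le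
  have b2 : 0 ≤ ∑ j ∈ range N, L j - ∑ j ∈ range k, L j := by
    rw [← sum_Ico_eq_sub _ hk]
    exact sum_nonneg fun j hj => (hL j (mem_Ico.1 hj).2).le
  have c1 := mul_le_mul_of_nonneg_left e1 b2
  have c2 := mul_le_mul_of_nonneg_left e2 b1
  nlinarith

/-- the energy of a closed variation is bounded by the kicks -/
theorem energy_le {N : ℕ} (hN : 0 < N) {L : ℕ → ℝ} {A B : ℕ → W}
    (A0 : A 0 = 0) (stp : ∀ k < N, A (k + 1) = A k + L k • B k) (AN : A N = 0) {Q : ℕ → ℝ}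
    (kick : ∀ k, k + 1 < N → ⟪A (k + 1), B k⟫_ℝ - Q (k + 1) ≤ ⟪A (k + 1), B (k + 1)⟫_ℝ) :
    ∑ j ∈ range N, L j * ‖B j‖ ^ 2 ≤ ∑ k ∈ Ico 1 N, Q k := by
  obtain ⟨m, rfl⟩ : ∃ m, N = m + 1 := ⟨N - 1, by omega⟩
  have hs : ∀ k < m + 1, ⟪A (k + 1), B k⟫_ℝ = ⟪A k, B k⟫_ℝ + L k * ‖B k‖ ^ 2 := by
    intro k hk
    rw [stp k hk, inner_add_left, real_inner_smul_left, real_inner_self_eq_norm_sq]
  have h1 : ∀ k ≤ m, ∑ j ∈ range k, L j * ‖B j‖ ^ 2 - ∑ i ∈ Ico 1 (k + 1), Q i ≤ ⟪A k, B k⟫_ℝ := by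
    intro k
    induction k with
    | zero => intro _; rw [A0]; simp
    | succ k ih =>
      intro hk
      have h2 := ih (by omega)
      have h3 := kick k (by omega)
      rw [hs k (by omega)] at h3
      rw [sum_range_succ, sum_Ico_succ_top (by omega : 1 ≤ k + 1)]
      linarith
  have h2 := h1 m le_rfl
  have h3 := hs m (by omega)
  rw [AN, inner_zero_left] at h3
  rw [sum_range_succ]
  linarith

/-- The trace form of the Lyapunov inequality. -/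
theorem trace_ineq [FiniteDimensional ℝ W] {N : ℕ} (hN : 0 < N) {L : ℕ → ℝ}
    (hL : ∀ k < N, 0 < L k) {A B : ℕ → W →ₗ[ℝ] W} (A0 : A 0 = 0) (B0 : B 0 = LinearMap.id)
    (stp : ∀ k < N, A (k + 1) = A k + L k • B k) (AN : A N = 0) (K : Submodule ℝ W)
    {s : ℕ → ℕ} (φ : (k : ℕ) → Fin (s k) → W →ₗ[ℝ] ℝ) (ω : (k : ℕ) → Fin (s k) → ℝ)
    (τ : ℕ → ℝ) (hω : ∀ k j, 0 ≤ ω k j) (hτ : ∀ k, 0 < k → k < N → ∑ j, ω k j ≤ τ k)
    (hφ : ∀ k, k + 1 < N → ∀ j δ, φ (k + 1) j δ ^ 2 ≤ ω (k + 1) j * ‖A (k + 1) δ‖ ^ 2)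
    (kick : ∀ k, k + 1 < N → ∀ δ ∈ K, ⟪A (k + 1) δ, B k δ⟫_ℝ - ∑ j, φ (k + 1) j δ ^ 2 ≤
      ⟪A (k + 1) δ, B (k + 1) δ⟫_ℝ) :
    (Module.finrank ℝ K : ℝ) * ∑ j ∈ range N, L j ≤ ∑ k ∈ Ico 1 N, τ k *
      ((∑ j ∈ range k, L j) * (∑ j ∈ range N, L j - ∑ j ∈ range k, L j)) := by
  obtain ⟨ι, hι⟩ : ∃ ι : W →ₗ[ℝ] PiLp 2 (fun _ : Fin N => W), ∀ δ j,
      (ι δ) j = Real.sqrt (L j) • B j δ :=
    ⟨(WithLp.linearEquiv 2 ℝ (Fin N → W)).symm.toLinearMap ∘ₗ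
      LinearMap.pi (fun j : Fin N => Real.sqrt (L j) • B j), fun δ j => rfl⟩
  have hn : ∀ δ, ‖ι δ‖ ^ 2 = ∑ j ∈ range N, L j * ‖B j δ‖ ^ 2 := by
    intro δ
    rw [PiLp.norm_sq_eq_of_L2, ← Fin.sum_univ_eq_sum_range (fun j => L j * ‖B j δ‖ ^ 2)]
    refine sum_congr rfl fun j _ => ?_
    rw [hι, norm_smul, mul_pow, Real.norm_eq_abs, sq_abs, Real.sq_sqrt (hL j j.2).le]
  have hinj : Function.Injective ι := by
    rw [← LinearMap.ker_eq_bot, LinearMap.ker_eq_bot']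
    intro δ h0
    have h1 := hι δ ⟨0, hN⟩
    rw [h0, B0] at h1
    simp only [LinearMap.id_apply] at h1
    have h2 : Real.sqrt (L 0) ≠ 0 := (Real.sqrt_pos.2 (hL 0 hN)).ne'
    exact (smul_eq_zero.1 h1.symm).resolve_left h2
  obtain ⟨δ, hδK, hon⟩ := exists_on ι hinj K
  have hT : 0 < ∑ j ∈ range N, L j := sum_pos (fun j hj => hL j (mem_range.1 hj)) ⟨0, mem_range.2 hN⟩
  -- the total energy
  have h1 : (Module.finrank ℝ K : ℝ) = ∑ i, ‖ι (δ i)‖ ^ 2 := by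
    have h2 : ∀ i, ‖ι (δ i)‖ ^ 2 = 1 := fun i => by rw [hon.1 i, one_pow]
    simp only [h2, sum_const, card_univ, Fintype.card_fin, nsmul_eq_mul, mul_one]
  have h2 : ∀ i, ‖ι (δ i)‖ ^ 2 ≤ ∑ k ∈ Ico 1 N, ∑ j, φ k j (δ i) ^ 2 := by
    intro i
    rw [hn]
    refine energy_le hN (A := fun k => A k (δ i)) (B := fun k => B k (δ i)) (by rw [A0]; rfl)
      (fun k hk => by rw [stp k hk]; rfl) (by rw [AN]; rfl) (Q := fun k => ∑ j, φ k j (δ i) ^ 2)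
      (fun k hk => kick k hk (δ i) (hδK i))
  have h3 : ∀ k ∈ Ico 1 N, ∀ j, (∑ i, φ k j (δ i) ^ 2) * ∑ j ∈ range N, L j ≤ ω k j *
      ((∑ j ∈ range k, L j) * (∑ j ∈ range N, L j - ∑ j ∈ range k, L j)) := by
    intro k hk j
    obtain ⟨hk1, hk2⟩ := mem_Ico.1 hk
    obtain ⟨k', rfl⟩ : ∃ k', k = k' + 1 := ⟨k - 1, by omega⟩
    have hg0 : 0 ≤ (∑ j ∈ range (k' + 1), L j) *
        (∑ j ∈ range N, L j - ∑ j ∈ range (k' + 1), L j) := by
      refine mul_nonneg (sum_nonneg fun j hj => (hL j (by have := mem_range.1 hj; omega)).le) ?_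
      rw [← sum_Ico_eq_sub _ hk2.le]
      exact sum_nonneg fun j hj => (hL j (mem_Ico.1 hj).2).le
    have hb := bessel ι δ hon (φ (k' + 1) j) (c := ω (k' + 1) j *
      ((∑ j ∈ range (k' + 1), L j) * (∑ j ∈ range N, L j - ∑ j ∈ range (k' + 1), L j)) /
        ∑ j ∈ range N, L j) (div_nonneg (mul_nonneg (hω _ _) hg0) hT.le) (fun w => by
        have e1 := hφ k' hk2 j w
        have e2 := disp_le hL (A := fun k => A k w) (B := fun k => B k w) (by rw [A0]; rfl)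
          (fun k hk => by rw [stp k hk]; rfl) (by rw [AN]; rfl) hk2.le
        rw [← hn] at e2
        have e3 := mul_le_mul_of_nonneg_left e2 (hω (k' + 1) j)
        rw [div_mul_eq_mul_div, le_div_iff₀ hT]
        have e4 := mul_le_mul_of_nonneg_right e1 hT.le
        calc φ (k' + 1) j w ^ 2 * ∑ j ∈ range N, L j
            ≤ ω (k' + 1) j * ‖A (k' + 1) w‖ ^ 2 * ∑ j ∈ range N, L j := e4
          _ = ω (k' + 1) j * ((∑ j ∈ range N, L j) * ‖A (k' + 1) w‖ ^ 2) := by ring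
          _ ≤ _ := e3
          _ = _ := by ring)
    rwa [le_div_iff₀ hT] at hb
  calc (Module.finrank ℝ K : ℝ) * ∑ j ∈ range N, L j
      = (∑ i, ‖ι (δ i)‖ ^ 2) * ∑ j ∈ range N, L j := by rw [h1]
    _ ≤ (∑ i, ∑ k ∈ Ico 1 N, ∑ j, φ k j (δ i) ^ 2) * ∑ j ∈ range N, L j :=
        mul_le_mul_of_nonneg_right (sum_le_sum fun i _ => h2 i) hT.le
    _ = ∑ k ∈ Ico 1 N, ∑ j, (∑ i, φ k j (δ i) ^ 2) * ∑ j ∈ range N, L j := by
        rw [sum_comm, sum_mul]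
        refine sum_congr rfl fun k _ => ?_
        rw [sum_comm, sum_mul]
    _ ≤ ∑ k ∈ Ico 1 N, ∑ j, ω k j * ((∑ j ∈ range k, L j) *
          (∑ j ∈ range N, L j - ∑ j ∈ range k, L j)) :=
        sum_le_sum fun k hk => sum_le_sum fun j _ => h3 k hk j
    _ ≤ _ := sum_le_sum fun k hk => by
        obtain ⟨hk1, hk2⟩ := mem_Ico.1 hk
        rw [← sum_mul]
        refine mul_le_mul_of_nonneg_right (hτ k (by omega) hk2) ?_
        refine mul_nonneg (sum_nonneg fun j hj => (hL j (by have := mem_range.1 hj; omega)).le) ?_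
        rw [← sum_Ico_eq_sub _ hk2.le]
        exact sum_nonneg fun j hj => (hL j (mem_Ico.1 hj).2).le

end

end Pool.Agent.U939.IV.Tr
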