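import Pool.Agent.U939.IV.Tr

/-!
# The trace form of the Lyapunov inequality for almost every periodic billiard trajectory
-/

set_option autoImplicit false

open MeasureTheory Set Filter Topology
open scoped InnerProductSpace
open Pool.Agent.H721R2.Quart Pool.Agent.H721R2.Ivrii Pool.Agent.TH746 Pool.Agent.TH318.Iv

namespace Pool.Agent.U939.IV.Tr

section Defs
variable {E : Type*} [NormedAddCommGroup E] [InnerProductSpace ℝ E] [CompleteSpace E]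

/-- The focusing form of the bounce at the boundary point `q` with outgoing unit velocity `u` has trace
at most `τ` off `r` directions: on the tangent vectors `w` orthogonal to some vectors `b 1, …, b r`,
`2 cos φ F''(w, w) / |∇F| ≤ ∑ j, ⟨a j, w⟩²` for some vectors `a j` orthogonal to `u` with
`∑ j, |a j|² ≤ τ`, where `φ` is the angle between the trajectory and the normal. -/
def TrLe (Ω : Set E) (q u : E) (r : ℕ) (τ : ℝ) : Prop :=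
  ∃ F : E → ℝ, LocalDef Ω q F ∧ ∃ (b : Fin r → E) (s : ℕ) (a : Fin s → E),
    (∀ j, ⟪u, a j⟫_ℝ = 0) ∧ ∑ j, ‖a j‖ ^ 2 ≤ τ ∧
    ∀ w : E, ⟪gradient F q, w⟫_ℝ = 0 → (∀ i, ⟪b i, w⟫_ℝ = 0) →
      2 * |⟪gradient F q, u⟫_ℝ| * fderiv ℝ (fderiv ℝ F) q w w ≤
        ‖gradient F q‖ ^ 2 * ∑ j, ⟪a j, w⟫_ℝ ^ 2

/-- The focusing at the bounces `1, …, n - 1` of the path is weak: the traces `τ k` off `r k` directions
violate the inequality `∑ τ k * s k * (ℓ - s k) ≥ (d - 1 - ∑ r k) * ℓ`, where `s k` is the position of the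
bounce `k` along the path, `ℓ` the length of the path and `d` the dimension. -/
def TrPath (Ω : Set E) (n : ℕ) (p u : ℕ → E) : Prop :=
  ∃ (r : ℕ → ℕ) (τ : ℕ → ℝ), (∀ k, 0 < k → k < n → TrLe Ω (p k) (u k) (r k) (τ k)) ∧
    ∑ k ∈ Finset.Ico 1 n, τ k * (pos p k * (pos p n - pos p k)) <
      ((Module.finrank ℝ E : ℝ) - 1 - ∑ k ∈ Finset.Ico 1 n, (r k : ℝ)) * pos p n

/-- The phase points whose billiard trajectory is periodic modulo some isometry `g ∈ Γ` and such that,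
for some bounce `i`, the path from this bounce to its image under `g` has weak focusing. -/
def TrPer (Γ : Set (E ≃ᵃⁱ[ℝ] E)) (Ω : Set E) : Set (E × E) :=
  {z | ∃ g ∈ Γ, ∃ (n : ℕ) (p u : ℕ → E) (i : ℕ), OrbitMod Ω g n p u ∧ (p 0, u 0) = z ∧ i < n ∧
    TrPath Ω n (fun k => p (k + i)) (fun k => u (k + i))}

/-- The phase points whose billiard trajectory is periodic modulo some isometry `g ∈ Γ`, of length `ℓ`
over a period, such that off some bounce `i` the traces `τ k` of the focusing forms of the bounces of a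
period satisfy `ℓ * ∑ τ k < 4 (d - 1)`. -/
def TrTot (Γ : Set (E ≃ᵃⁱ[ℝ] E)) (Ω : Set E) : Set (E × E) :=
  {z | ∃ g ∈ Γ, ∃ (n : ℕ) (p u : ℕ → E) (i : ℕ) (τ : ℕ → ℝ), OrbitMod Ω g n p u ∧ (p 0, u 0) = z ∧
    i < n ∧ (∀ k, 0 < k → k < n → TrLe Ω (p (k + i)) (u (k + i)) 0 (τ k)) ∧
    pos p n * ∑ k ∈ Finset.Ico 1 n, τ k < 4 * ((Module.finrank ℝ E : ℝ) - 1)}

end Defs

section A
variable {E : Type*} [NormedAddCommGroup E] [InnerProductSpace ℝ E] [FiniteDimensional ℝ E]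

theorem TrLe.nonneg {Ω : Set E} {q u : E} {r : ℕ} {τ : ℝ} (h : TrLe Ω q u r τ) : 0 ≤ τ := by
  obtain ⟨F, -, b, s, a, -, h2, -⟩ := h
  exact (Finset.sum_nonneg fun j _ => sq_nonneg _).trans h2

/-- The trace does not depend on the defining function. -/
theorem trLe_def {Ω : Set E} {q u : E} {r : ℕ} {τ : ℝ} (h : TrLe Ω q u r τ) {F : E → ℝ}
    (hF : LocalDef Ω q F) : ∃ (b : Fin r → E) (s : ℕ) (a : Fin s → E),
    (∀ j, ⟪u, a j⟫_ℝ = 0) ∧ ∑ j, ‖a j‖ ^ 2 ≤ τ ∧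
    ∀ w : E, ⟪gradient F q, w⟫_ℝ = 0 → (∀ i, ⟪b i, w⟫_ℝ = 0) →
      2 * |⟪gradient F q, u⟫_ℝ| * fderiv ℝ (fderiv ℝ F) q w w ≤
        ‖gradient F q‖ ^ 2 * ∑ j, ⟪a j, w⟫_ℝ ^ 2 := by
  obtain ⟨F', hF', b, s, a, ha, hτ, h⟩ := h
  obtain ⟨l, hl, hg, hc⟩ := curv_rel hF hF'
  refine ⟨b, s, a, ha, hτ, fun w hw hi => ?_⟩
  have h1 := h w (by rw [hg, real_inner_smul_left, hw, mul_zero]) hi
  rw [hc w hw, hg, real_inner_smul_left, abs_mul, abs_of_pos hl, norm_smul, Real.norm_eq_abs,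
    abs_of_pos hl, mul_pow] at h1
  have h2 : 0 < l ^ 2 := pow_pos hl 2
  by_contra hcon
  have h3 := mul_lt_mul_of_pos_left (not_le.1 hcon) h2
  linarith [h1, h3]

/-- The trace in terms of curvatures: if `F''(w, w) / |∇F| ≤ ∑ c j ⟨t j, w⟩²` for tangent `w`, with unit
tangent vectors `t j` and `c j ≥ 0`, and `cos φ = |⟨∇F, u⟩| / |∇F|`, then the trace is at most
`∑ 2 c j (cos φ + ⟨t j, u⟩² / cos φ)`. -/
theorem trLe_of_curv {Ω : Set E} {q u : E} {F : E → ℝ} (hF : LocalDef Ω q F)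
    (hu : ⟪gradient F q, u⟫_ℝ ≠ 0) {s : ℕ} (t : Fin s → E) (c : Fin s → ℝ) (hc : ∀ j, 0 ≤ c j)
    (ht : ∀ j, ‖t j‖ = 1) (htn : ∀ j, ⟪gradient F q, t j⟫_ℝ = 0)
    (hw : ∀ w : E, ⟪gradient F q, w⟫_ℝ = 0 →
      fderiv ℝ (fderiv ℝ F) q w w ≤ ‖gradient F q‖ * ∑ j, c j * ⟪t j, w⟫_ℝ ^ 2) :
    TrLe Ω q u 0 (∑ j, 2 * c j * (|⟪gradient F q, u⟫_ℝ| / ‖gradient F q‖ +
      ⟪t j, u⟫_ℝ ^ 2 * ‖gradient F q‖ / |⟪gradient F q, u⟫_ℝ|)) := by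
  have hg : 0 < ‖gradient F q‖ := norm_pos_iff.2 hF.grad
  obtain ⟨G, hG⟩ : ∃ G, G = gradient F q := ⟨_, rfl⟩
  obtain ⟨g, hgg⟩ : ∃ g : ℝ, g = ‖G‖ := ⟨_, rfl⟩
  obtain ⟨m, hm⟩ : ∃ m : ℝ, m = ⟪G, u⟫_ℝ := ⟨_, rfl⟩
  rw [← hG] at hu hg hw htn ⊢
  rw [← hgg] at hg hw ⊢
  rw [← hm] at hu ⊢
  have hm0 : 0 < |m| := abs_pos.2 hu
  have hGG : ⟪G, G⟫_ℝ = g ^ 2 := by rw [real_inner_self_eq_norm_sq, hgg]
  refine ⟨F, hF, Fin.elim0, s, fun j => Real.sqrt (2 * c j * (|m| / g)) •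
    (t j - (⟪t j, u⟫_ℝ / m) • G), fun j => ?_, Finset.sum_le_sum fun j _ => ?_, fun w h0 _ => ?_⟩
  · rw [inner_smul_right, inner_sub_right, inner_smul_right, real_inner_comm (t j) u,
      real_inner_comm G u, ← hm, div_mul_cancel₀ _ hu, sub_self, mul_zero]
  · have e1 : ‖t j - (⟪t j, u⟫_ℝ / m) • G‖ ^ 2 = 1 + ⟪t j, u⟫_ℝ ^ 2 / m ^ 2 * g ^ 2 := by
      rw [← real_inner_self_eq_norm_sq, inner_sub_left, inner_sub_right, inner_sub_right,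
        real_inner_smul_left, real_inner_smul_right, real_inner_smul_left, real_inner_smul_right,
        real_inner_comm G (t j), htn, hGG, real_inner_self_eq_norm_sq, ht]
      ring
    have h2 : 0 ≤ 2 * c j * (|m| / g) := by
      have := hc j
      positivity
    rw [norm_smul, mul_pow, Real.norm_eq_abs, sq_abs, Real.sq_sqrt h2, e1]
    refine le_of_eq ?_
    have h3 : m ^ 2 = |m| ^ 2 := (sq_abs m).symm
    rw [h3]
    field_simp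
  · rw [← hG] at h0
    have e2 : ∀ j, ⟪Real.sqrt (2 * c j * (|m| / g)) • (t j - (⟪t j, u⟫_ℝ / m) • G), w⟫_ℝ ^ 2 =
        2 * c j * (|m| / g) * ⟪t j, w⟫_ℝ ^ 2 := by
      intro j
      have h2 : 0 ≤ 2 * c j * (|m| / g) := by
        have := hc j
        positivity
      rw [real_inner_smul_left, inner_sub_left, real_inner_smul_left, h0, mul_zero, sub_zero,
        mul_pow, Real.sq_sqrt h2]
    simp only [e2]
    rw [← hG, ← hgg, ← hm]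
    have h4 := mul_le_mul_of_nonneg_left (hw w h0) (by positivity : 0 ≤ 2 * |m|)
    refine h4.trans (le_of_eq ?_)
    rw [Finset.mul_sum, Finset.mul_sum, Finset.mul_sum]
    refine Finset.sum_congr rfl fun j _ => ?_
    field_simp

end A

section B
variable {E Z : Type*} [NormedAddCommGroup E] [InnerProductSpace ℝ E] [FiniteDimensional ℝ E]
  [NormedAddCommGroup Z] [NormedSpace ℝ Z]

/-- The trace of the focusing form of the bounce `k` of the chain is at most `τ` off `r` directions. -/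
def CT (C : Chn E Z) (z : Z) (k r : ℕ) (τ : ℝ) : Prop :=
  ∃ (b : Fin r → E) (s : ℕ) (a : Fin s → E), (∀ j, ⟪C.e k z, a j⟫_ℝ = 0) ∧
    ∑ j, ‖a j‖ ^ 2 ≤ τ ∧ ∀ w, ⟪C.n k z, w⟫_ℝ = 0 → (∀ i, ⟪b i, w⟫_ℝ = 0) →
      2 * ⟪C.n k z, C.e k z⟫_ℝ * ⟪C.S k z w, w⟫_ℝ ≤ ∑ j, ⟪a j, w⟫_ℝ ^ 2

/-- At a point where all variations close the inequality holds. -/
theorem tr_chn (C : Chn E Z) {z : Z} (hz : z ∈ C.U)
    (he : C.e C.N z = C.G (C.e 0 z)) (hn : C.n C.N z = C.G (C.n 0 z))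
    (hX : ∀ ζ, fderiv ℝ (C.x C.N) z ζ = C.G (fderiv ℝ (C.x 0) z ζ))
    (hE : ∀ ζ, fderiv ℝ (C.e C.N) z ζ = C.G (fderiv ℝ (C.e 0) z ζ))
    (hn' : ∀ ζ, fderiv ℝ (C.n C.N) z ζ = C.G (fderiv ℝ (C.n 0) z ζ)) (r : ℕ → ℕ) (τ : ℕ → ℝ)
    (hk : ∀ k, 0 < k → k < C.N → CT C z k (r k) (τ k)) :
    ((Module.finrank ℝ E : ℝ) - 1 - ∑ k ∈ Finset.Ico 1 C.N, (r k : ℝ)) *
        ∑ j ∈ Finset.range C.N, C.L j z ≤
      ∑ k ∈ Finset.Ico 1 C.N, τ k * ((∑ j ∈ Finset.range k, C.L j z) *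
        (∑ j ∈ Finset.range C.N, C.L j z - ∑ j ∈ Finset.range k, C.L j z)) := by
  obtain ⟨σ, A, B, A0, B0, stp, AN, -, -, hv⟩ := unf C hz he hn hX hE hn'
  have hN := C.hN
  have hLp : ∀ k < C.N, 0 < C.L k z := fun k hk => C.Lpos k hk z hz
  have hfr : Module.finrank ℝ (ℝ ∙ C.e 0 z)ᗮ + 1 = Module.finrank ℝ E := by
    have h1 := Submodule.finrank_add_finrank_orthogonal (ℝ ∙ (C.e 0 z))
    have h2 : Module.finrank ℝ (ℝ ∙ (C.e 0 z)) = 1 := by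
      refine finrank_span_singleton fun h0 => ?_
      have h6 := C.ee 0 C.hN z hz
      rw [h0, inner_zero_left] at h6
      exact zero_ne_one h6
    omega
  have h1 : ∀ k, ∃ (b : Fin (r k) → E) (s : ℕ) (a : Fin s → E), 0 < k → k < C.N →
      (∀ j, ⟪C.e k z, a j⟫_ℝ = 0) ∧
      ∑ j, ‖a j‖ ^ 2 ≤ τ k ∧ ∀ w, ⟪C.n k z, w⟫_ℝ = 0 → (∀ i, ⟪b i, w⟫_ℝ = 0) →
        2 * ⟪C.n k z, C.e k z⟫_ℝ * ⟪C.S k z w, w⟫_ℝ ≤ ∑ j, ⟪a j, w⟫_ℝ ^ 2 := by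
    intro k
    by_cases h : 0 < k ∧ k < C.N
    · obtain ⟨b, s, a, hh⟩ := hk k h.1 h.2
      exact ⟨b, s, a, fun _ _ => hh⟩
    · exact ⟨fun _ => 0, 0, Fin.elim0, fun h1 h2 => absurd ⟨h1, h2⟩ h⟩
  choose b s a ha using h1
  obtain ⟨φ, hφ⟩ : ∃ φ : (k : ℕ) → Fin (s k) → (ℝ ∙ C.e 0 z)ᗮ →ₗ[ℝ] ℝ,
      ∀ k j δ, φ k j δ = ⟪a k j, fderiv ℝ (C.x k) z (σ δ)⟫_ℝ :=
    ⟨fun k j => (innerₛₗ ℝ (a k j)) ∘ₗ (fderiv ℝ (C.x k) z : Z →ₗ[ℝ] E) ∘ₗ σ, fun k j δ => rfl⟩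
  obtain ⟨Φ, hΦ⟩ : ∃ Φ : (ℝ ∙ C.e 0 z)ᗮ →ₗ[ℝ] ((k : Fin (C.N - 1)) × Fin (r (k + 1)) → ℝ),
      ∀ δ k i, Φ δ ⟨k, i⟩ = ⟪b (k + 1) i, fderiv ℝ (C.x (k + 1)) z (σ δ)⟫_ℝ :=
    ⟨LinearMap.pi fun q => (innerₛₗ ℝ (b (q.1 + 1) q.2)) ∘ₗ
      (fderiv ℝ (C.x (q.1 + 1)) z : Z →ₗ[ℝ] E) ∘ₗ σ, fun δ k i => rfl⟩
  have hcard : Module.finrank ℝ ((k : Fin (C.N - 1)) × Fin (r (k + 1)) → ℝ) =
      ∑ k ∈ Finset.Ico 1 C.N, r k := by
    rw [Module.finrank_fintype_fun_eq_card, Fintype.card_sigma]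
    simp only [Fintype.card_fin]
    rw [Finset.sum_Ico_eq_sum_range, ← Fin.sum_univ_eq_sum_range (fun k => r (1 + k))]
    refine Finset.sum_congr rfl fun k _ => ?_
    rw [add_comm]
  have hker := LinearMap.finrank_range_add_finrank_ker Φ
  have hle : Module.finrank ℝ (LinearMap.range Φ) ≤ ∑ k ∈ Finset.Ico 1 C.N, r k := by
    rw [← hcard]; exact Submodule.finrank_le _
  -- the vertices
  have hvx : ∀ k, k + 1 < C.N → ∀ δ, ⟪C.n (k + 1) z, fderiv ℝ (C.x (k + 1)) z (σ δ)⟫_ℝ = 0 ∧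
      ‖A (k + 1) δ‖ ^ 2 = ‖fderiv ℝ (C.x (k + 1)) z (σ δ)‖ ^ 2 -
        ⟪C.e (k + 1) z, fderiv ℝ (C.x (k + 1)) z (σ δ)⟫_ℝ ^ 2 ∧
      ⟪A (k + 1) δ, B (k + 1) δ⟫_ℝ = ⟪A (k + 1) δ, B k δ⟫_ℝ -
        2 * ⟪C.n (k + 1) z, C.e (k + 1) z⟫_ℝ * ⟪C.S (k + 1) z (fderiv ℝ (C.x (k + 1)) z (σ δ)),
          fderiv ℝ (C.x (k + 1)) z (σ δ)⟫_ℝ := by
    intro k hk1 δ
    obtain ⟨e1, e2, e3⟩ := hv k hk1 δ
    have hr := C.refl k (by omega) z
    have hnn := C.nn (k + 1) hk1 z hz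
    have ho : ⟪C.n (k + 1) z, C.e (k + 1) z⟫_ℝ = -⟪C.n (k + 1) z, C.e k z⟫_ℝ := by
      rw [hr]; unfold rf
      rw [inner_sub_right, inner_smul_right, hnn]
      ring
    have h5 : ⟪C.e (k + 1) z, fderiv ℝ (C.x (k + 1)) z (σ δ)⟫_ℝ =
        ⟪C.e k z, fderiv ℝ (C.x (k + 1)) z (σ δ)⟫_ℝ := by
      rw [hr, G3_rf_sym, G3_rf_tan e1]
    refine ⟨e1, by rw [e2, h5], ?_⟩
    rw [e3, ho]
    ring
  have hmain := trace_ineq (N := C.N) hN (L := fun k => C.L k z) hLp A0 B0 stp AN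
    (LinearMap.ker Φ) φ (fun k j => ‖a k j‖ ^ 2) τ (fun k j => sq_nonneg _)
    (fun k h1 h2 => (ha k h1 h2).2.1) (fun k hk1 j δ => by
      obtain ⟨e1, e2, -⟩ := hvx k hk1 δ
      have hperp := (ha (k + 1) (Nat.succ_pos k) hk1).1 j
      have hee := C.ee (k + 1) hk1 z hz
      obtain ⟨X, hXd⟩ : ∃ X, X = fderiv ℝ (C.x (k + 1)) z (σ δ) := ⟨_, rfl⟩
      rw [hφ, ← hXd]
      rw [← hXd] at e2
      have h3 : ⟪a (k + 1) j, X⟫_ℝ =
          ⟪a (k + 1) j, X - ⟪C.e (k + 1) z, X⟫_ℝ • C.e (k + 1) z⟫_ℝ := by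
        rw [inner_sub_right, inner_smul_right, real_inner_comm (C.e (k + 1) z) (a (k + 1) j),
          hperp, mul_zero, sub_zero]
      rw [h3, e2, ← norm_perp hee, ← mul_pow, ← sq_abs]
      exact pow_le_pow_left₀ (abs_nonneg _) (abs_real_inner_le_norm _ _) 2)
    (fun k hk1 δ hδ => by
      obtain ⟨e1, -, e3⟩ := hvx k hk1 δ
      have h4 := (ha (k + 1) (Nat.succ_pos k) hk1).2.2 _ e1 (fun i => by
        have h3 := congrFun (LinearMap.mem_ker.1 hδ) ⟨⟨k, by omega⟩, i⟩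
        rw [hΦ] at h3
        exact h3)
      simp only [hφ]
      rw [e3]
      linarith)
  refine le_trans ?_ hmain
  refine mul_le_mul_of_nonneg_right ?_ (Finset.sum_nonneg fun j hj =>
    (hLp j (Finset.mem_range.1 hj)).le)
  have h6 : (Module.finrank ℝ E : ℝ) = (Module.finrank ℝ (ℝ ∙ C.e 0 z)ᗮ : ℝ) + 1 := by
    exact_mod_cast hfr.symm
  have h7 : (Module.finrank ℝ (LinearMap.range Φ) : ℝ) + (Module.finrank ℝ (LinearMap.ker Φ) : ℝ) =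
      (Module.finrank ℝ (ℝ ∙ C.e 0 z)ᗮ : ℝ) := by exact_mod_cast hker
  have h8 : (Module.finrank ℝ (LinearMap.range Φ) : ℝ) ≤ ∑ k ∈ Finset.Ico 1 C.N, (r k : ℝ) := by
    exact_mod_cast hle
  linarith

end B

section D
variable {E : Type*} [NormedAddCommGroup E] [InnerProductSpace ℝ E] [FiniteDimensional ℝ E]
  [MeasurableSpace E] [BorelSpace E]

theorem local_null3 (hd : 2 ≤ Module.finrank ℝ E) {Ω : Set E} {g : E ≃ᵃⁱ[ℝ] E}
    (hg : g ⁻¹' Ω = Ω) {n : ℕ} {p u : ℕ → E} (h : OrbitMod Ω g n p u) (m : ℕ) (hm : m ≤ n) :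
    ∃ Y : Set (E × E), μH[(2 * Module.finrank ℝ E - 2 : ℕ)] Y = 0 ∧
      ∀ᶠ w : (ℕ → E) × (ℕ → E) in 𝓝 (p, u), (OrbitMod Ω g n w.1 w.2 ∧
        TrPath Ω n w.1 w.2) → (w.1 m, w.2 m) ∈ Y := by
  obtain ⟨a, b, C, ha, hb, hCN, hCg, hLip, hev⟩ := exists_chn2 hg h
  have hfr : Module.finrank ℝ ((ℝ ∙ a)ᗮ × (ℝ ∙ b)ᗮ) = 2 * Module.finrank ℝ E - 2 := by
    have h1 := Submodule.finrank_add_finrank_orthogonal (ℝ ∙ a)
    have h2 := Submodule.finrank_add_finrank_orthogonal (ℝ ∙ b)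
    rw [finrank_span_singleton ha] at h1
    rw [finrank_span_singleton hb] at h2
    rw [Module.finrank_prod]
    omega
  obtain ⟨B, hBA, hBm, hBn, hBg⟩ := C.exists_good
    (μH[Module.finrank ℝ ((ℝ ∙ a)ᗮ × (ℝ ∙ b)ᗮ)]) univ
  rw [hfr] at hBn
  obtain ⟨R, hR⟩ : ∃ R : Set ((ℝ ∙ a)ᗮ × (ℝ ∙ b)ᗮ), R = {z | z ∈ C.A univ ∧
      ∃ (r : ℕ → ℕ) (τ : ℕ → ℝ), (∀ k, 0 < k → k < C.N → CT C z k (r k) (τ k)) ∧
      ∑ k ∈ Finset.Ico 1 C.N, τ k * ((∑ j ∈ Finset.range k, C.L j z) *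
        (∑ j ∈ Finset.range C.N, C.L j z - ∑ j ∈ Finset.range k, C.L j z)) <
      ((Module.finrank ℝ E : ℝ) - 1 - ∑ k ∈ Finset.Ico 1 C.N, (r k : ℝ)) *
        ∑ j ∈ Finset.range C.N, C.L j z} := ⟨_, rfl⟩
  have hRA : μH[(2 * Module.finrank ℝ E - 2 : ℕ)] R = 0 := by
    refine measure_mono_null ?_ hBn
    rw [hR]
    rintro z ⟨hz, r, τ, hk, hlt⟩
    refine ⟨hz, fun hzB => ?_⟩
    exact absurd (tr_chn C hz.1 hz.2.2.1 hz.2.2.2.1 (hBg z hzB).1 (hBg z hzB).2.1 (hBg z hzB).2.2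
      r τ hk) (not_le.2 hlt)
  obtain ⟨K, hK⟩ := hLip m hm
  refine ⟨(fun z => (C.x m z, C.e m z)) '' R, ?_, ?_⟩
  · have hK' : LipschitzOnWith K (fun z => (C.x m z, C.e m z)) R :=
      hK.mono fun z hz => by rw [hR] at hz; exact hz.1.1
    have h1 := hK'.hausdorffMeasure_image_le
      (d := ((2 * Module.finrank ℝ E - 2 : ℕ) : ℝ)) (Nat.cast_nonneg _)
    rw [hRA, mul_zero] at h1
    exact nonpos_iff_eq_zero.mp h1
  · filter_upwards [hev] with w hw hor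
    obtain ⟨z, hzU, hz1, hz2, hz3⟩ := hw hor.1
    refine ⟨z, ?_, ?_⟩
    swap
    · simp only
      rw [(hz1 m hm).1, (hz1 m hm).2]
    rw [hR]
    refine ⟨⟨hzU, ?_, ?_, hz2, fun k _ hk => absurd (mem_univ k) hk⟩, ?_⟩
    · rw [hCN, (hz1 n le_rfl).1, (hz1 0 (Nat.zero_le _)).1, hCg]
      have := hor.1.perp 0
      rwa [zero_add] at this
    · rw [hCN, (hz1 n le_rfl).2, (hz1 0 (Nat.zero_le _)).2, C.G_apply, hCg]
      have := hor.1.peru 0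
      rwa [zero_add] at this
    have hunit := unit_steps hor.1.step hor.1.unit
    have hlen : ∀ j < n, C.L j z = ‖w.1 (j + 1) - w.1 j‖ := by
      intro j hj
      have h1 := C.step j (by omega) z
      rw [(hz1 (j + 1) hj).1, (hz1 j hj.le).1, (hz1 j hj.le).2] at h1
      have h2 : ‖w.2 j‖ = 1 := by
        have h5 := hunit j
        rw [real_inner_self_eq_norm_sq] at h5
        nlinarith [norm_nonneg (w.2 j)]
      rw [h1, add_sub_cancel_left, norm_smul, h2, mul_one, Real.norm_eq_abs,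
        abs_of_pos (C.Lpos j (by omega) z hzU)]
    have hsum : ∀ k ≤ n, ∑ j ∈ Finset.range k, C.L j z = pos w.1 k := by
      intro k hk
      exact Finset.sum_congr rfl fun j hj => hlen j (by have := Finset.mem_range.1 hj; omega)
    have hCT : ∀ k, 0 < k → k < C.N → ∀ (r : ℕ) (τ : ℝ), TrLe Ω (w.1 k) (w.2 k) r τ →
        CT C z k r τ := by
      intro k hk0 hk r τ h2
      rw [hCN] at hk
      obtain ⟨k', rfl⟩ : ∃ k', k = k' + 1 := ⟨k - 1, by omega⟩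
      obtain ⟨F, hF, hn, hS⟩ := hz3 (k' + 1) hk
      obtain ⟨b', s, a', h3, h4, h5⟩ := trLe_def h2 hF
      refine ⟨b', s, a', ?_, h4, fun x hx hi => ?_⟩
      · rw [(hz1 (k' + 1) hk.le).2]; exact h3
      have hN : 0 < ‖gradient F (w.1 (k' + 1))‖ := norm_pos_iff.2 hF.grad
      have hga : ⟪gradient F (w.1 (k' + 1)), x⟫_ℝ = 0 := by
        rw [hn] at hx
        unfold dir at hx
        rw [real_inner_smul_left] at hx
        exact (mul_eq_zero.1 hx).resolve_left (inv_ne_zero hN.ne')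
      have h6 := h5 x hga hi
      -- the sign of the outgoing direction
      have hr := C.refl k' (by omega) z
      have hnn := C.nn (k' + 1) (by omega) z hzU
      have hp : 0 < ⟪C.n (k' + 1) z, C.e k' z⟫_ℝ := by
        rw [hn, (hz1 k' (by omega)).2]
        unfold dir
        rw [real_inner_smul_left]
        exact mul_pos (inv_pos.2 hN) (step_pos (hor.1.step k') hF)
      have ho : ⟪C.n (k' + 1) z, C.e (k' + 1) z⟫_ℝ = -⟪C.n (k' + 1) z, C.e k' z⟫_ℝ := by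
        rw [hr]; unfold rf
        rw [inner_sub_right, inner_smul_right, hnn]
        ring
      have h8 : ⟪gradient F (w.1 (k' + 1)), w.2 (k' + 1)⟫_ℝ =
          ‖gradient F (w.1 (k' + 1))‖ * ⟪C.n (k' + 1) z, C.e (k' + 1) z⟫_ℝ := by
        rw [hn, (hz1 (k' + 1) hk.le).2]
        unfold dir
        rw [real_inner_smul_left, mul_inv_cancel_left₀ hN.ne']
      have h9 : |⟪gradient F (w.1 (k' + 1)), w.2 (k' + 1)⟫_ℝ| =
          -(‖gradient F (w.1 (k' + 1))‖ * ⟪C.n (k' + 1) z, C.e (k' + 1) z⟫_ℝ) := by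
        rw [h8]
        refine abs_of_nonpos ?_
        rw [ho]
        have := mul_pos hN hp
        linarith
      rw [h9] at h6
      rw [hS x hx]
      have h10 : ‖gradient F (w.1 (k' + 1))‖ ^ 2 * (2 * ⟪C.n (k' + 1) z, C.e (k' + 1) z⟫_ℝ *
          -(‖gradient F (w.1 (k' + 1))‖⁻¹ * fderiv ℝ (fderiv ℝ F) (w.1 (k' + 1)) x x)) =
          2 * -(‖gradient F (w.1 (k' + 1))‖ * ⟪C.n (k' + 1) z, C.e (k' + 1) z⟫_ℝ) *
            fderiv ℝ (fderiv ℝ F) (w.1 (k' + 1)) x x := by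
        field_simp
      rw [← h10] at h6
      exact le_of_mul_le_mul_left h6 (pow_pos hN 2)
    obtain ⟨-, r, τ, hk, hlt⟩ := hor
    refine ⟨r, τ, fun k h1 h2 => hCT k h1 h2 _ _ (hk k h1 (by rw [hCN] at h2; exact h2)), ?_⟩
    rw [hCN, hsum n le_rfl]
    refine lt_of_eq_of_lt (Finset.sum_congr rfl fun k hk => ?_) hlt
    rw [hsum k (Finset.mem_Ico.1 hk).2.le]

/-- The phase points of the weakly focused trajectories. -/
def Tw (Ω : Set E) (g : E ≃ᵃⁱ[ℝ] E) (n m : ℕ) : Set (E × E) :=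
  (fun w : (ℕ → E) × (ℕ → E) => (w.1 m, w.2 m)) ''
      {w | OrbitMod Ω g n w.1 w.2 ∧ TrPath Ω n w.1 w.2}

theorem tw_null (hd : 2 ≤ Module.finrank ℝ E) {Ω : Set E} {g : E ≃ᵃⁱ[ℝ] E}
    (hg : g ⁻¹' Ω = Ω) (n m : ℕ) (hm : m ≤ n) :
    μH[(2 * Module.finrank ℝ E - 2 : ℕ)] (Tw Ω g n m) = 0 := by
  apply null_of_locally_null
  rintro ⟨p, u⟩ ⟨h, -⟩
  exact local_null3 hd hg h m hm

/-- The main theorem. -/
theorem trPer_null (hd : 2 ≤ Module.finrank ℝ E) (Ω : Set E) (Γ : Set (E ≃ᵃⁱ[ℝ] E))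
    (hΓ : Γ.Countable) (hinv : ∀ g ∈ Γ, g ⁻¹' Ω = Ω) :
    μH[(2 * Module.finrank ℝ E - 2 : ℕ)] (TrPer Γ Ω) = 0 := by
  refine measure_mono_null (t := ⋃ g ∈ Γ, ⋃ n : ℕ, ⋃ m : ℕ, ⋃ (_ : m ≤ n),
    {z : E × E | (g z.1, g.linearIsometryEquiv z.2) ∈ Tw Ω g n m}) ?_ ?_
  · rintro z ⟨g, hgΓ, n, p, u, i, h, rfl, hin, hw⟩
    refine mem_iUnion₂.2 ⟨g, hgΓ, mem_iUnion.2 ⟨n, mem_iUnion.2 ⟨n - i,
      mem_iUnion.2 ⟨Nat.sub_le _ _, ?_⟩⟩⟩⟩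
    refine ⟨(fun k => p (k + i), fun k => u (k + i)), ⟨OrbitMod.shift2 h i, hw⟩, ?_⟩
    have e : n - i + i = 0 + n := by omega
    simp only [e, h.perp, h.peru]
  · refine (measure_biUnion_null_iff hΓ).2 fun g hgΓ => ?_
    refine measure_iUnion_null fun n => measure_iUnion_null fun m =>
      measure_iUnion_null fun hm => ?_
    exact pull2 g _ _ (tw_null hd (hinv g hgΓ) n m hm)

end D

end Pool.Agent.U939.IV.Tr
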