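import Pool.Agent.U939.IV.TrMain

/-!
# The average over all bounces of the trace form of the Lyapunov inequality
-/

set_option autoImplicit false

open MeasureTheory Set Filter Topology
open scoped InnerProductSpace
open Pool.Agent.H721R2.Quart Pool.Agent.H721R2.Ivrii Pool.Agent.TH746 Pool.Agent.TH318.Iv

namespace Pool.Agent.U939.IV.Tr

theorem sum_shift {G : ℕ → ℝ} {n : ℕ} (hG : ∀ k, G (k + n) = G k) (m : ℕ) :
    ∑ i ∈ Finset.range n, G (i + m) = ∑ i ∈ Finset.range n, G i := by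
  induction m with
  | zero => rfl
  | succ m ih =>
    rw [← ih]
    have h4 := Finset.sum_range_succ (fun i => G (i + m)) n
    have h5 := Finset.sum_range_succ' (fun i => G (i + m)) n
    have h3 : G (n + m) = G (0 + m) := by rw [zero_add, add_comm, hG]
    have h6 : ∀ i, G (i + (m + 1)) = G (i + 1 + m) := fun i => by congr 1; ring
    simp only [h6]
    linarith

theorem trap {a b ℓ : ℝ} (h : a ≤ b) :
    (b - a) * (b * (ℓ - b) + a * (ℓ - a)) ≤
      2 * ((ℓ * b ^ 2 / 2 - b ^ 3 / 3) - (ℓ * a ^ 2 / 2 - a ^ 3 / 3)) := by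
  have h1 : 2 * ((ℓ * b ^ 2 / 2 - b ^ 3 / 3) - (ℓ * a ^ 2 / 2 - a ^ 3 / 3)) -
      (b - a) * (b * (ℓ - b) + a * (ℓ - a)) = (b - a) ^ 3 / 3 := by ring
  have h2 : 0 ≤ (b - a) ^ 3 / 3 := by
    have : 0 ≤ b - a := by linarith
    positivity
  linarith

/-- the average of the inequalities from all the bounces, by the trapezoidal rule -/
theorem avg {n : ℕ} {S τ : ℕ → ℝ} {ℓ c : ℝ} (hS : ∀ k, S (k + n) = S k + ℓ)
    (hm : ∀ k, S k ≤ S (k + 1)) (hτ : ∀ k, τ (k + n) = τ k) (h0 : ∀ k, 0 ≤ τ k)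
    (h : ∀ i, c ≤ ∑ j ∈ Finset.range n, τ (i + (j + 1)) *
      ((S (i + (j + 1)) - S i) * (ℓ - (S (i + (j + 1)) - S i)))) :
    6 * (c * ℓ) ≤ ℓ ^ 3 * ∑ k ∈ Finset.range n, τ k := by
  obtain ⟨H, hH⟩ : ∃ H : ℝ → ℝ, ∀ x, H x = ℓ * x ^ 2 / 2 - x ^ 3 / 3 := ⟨_, fun _ => rfl⟩
  obtain ⟨q, hq⟩ : ∃ q : ℝ → ℝ, ∀ x, q x = x * (ℓ - x) := ⟨_, fun _ => rfl⟩
  obtain ⟨Φ, hΦ⟩ : ∃ Φ : ℕ → ℝ, ∀ i, Φ i = ∑ j ∈ Finset.range n, τ (i + (j + 1)) *
      q (S (i + (j + 1)) - S i) := ⟨_, fun _ => rfl⟩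
  have hc : ∀ i, c ≤ Φ i := fun i => by
    rw [hΦ]
    simp only [hq]
    exact h i
  have hL : ∀ i, 0 ≤ S (i + 1) - S i := fun i => by linarith [hm i]
  have hsum : ∑ i ∈ Finset.range n, (S (i + 1) - S i) = ℓ := by
    rw [Finset.sum_range_sub]
    have := hS 0
    rw [zero_add] at this
    linarith
  have h1 : 2 * (c * ℓ) ≤ ∑ i ∈ Finset.range n, (S (i + 1) - S i) * (Φ i + Φ (i + 1)) := by
    calc 2 * (c * ℓ) = ∑ i ∈ Finset.range n, (S (i + 1) - S i) * (c + c) := by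
          rw [← Finset.sum_mul, hsum]; ring
      _ ≤ _ := Finset.sum_le_sum fun i _ => mul_le_mul_of_nonneg_left
          (add_le_add (hc i) (hc (i + 1))) (hL i)
  have h2 : ∀ i, Φ (i + 1) = ∑ j ∈ Finset.range n, τ (i + (j + 1)) *
      q (S (i + (j + 1)) - S (i + 1)) := by
    intro i
    obtain ⟨f, hf⟩ : ∃ f : ℕ → ℝ, ∀ j, f j = τ (i + (j + 1)) *
      q (S (i + (j + 1)) - S (i + 1)) := ⟨_, fun _ => rfl⟩
    have e0 : f 0 = 0 := by rw [hf, zero_add, sub_self, hq]; ring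
    have en : f n = 0 := by
      rw [hf, show i + (n + 1) = i + 1 + n by ring, hS, hq]; ring
    have e1 := Finset.sum_range_succ f n
    have e2 := Finset.sum_range_succ' f n
    have e3 : Φ (i + 1) = ∑ j ∈ Finset.range n, f (j + 1) := by
      rw [hΦ]
      refine Finset.sum_congr rfl fun j _ => ?_
      rw [hf, show i + 1 + (j + 1) = i + (j + 1 + 1) by ring]
    have e4 : ∑ j ∈ Finset.range n, τ (i + (j + 1)) * q (S (i + (j + 1)) - S (i + 1)) =
        ∑ j ∈ Finset.range n, f j := Finset.sum_congr rfl fun j _ => (hf j).symm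
    rw [e3, e4]
    linarith
  obtain ⟨G, hG⟩ : ∃ G : ℕ → ℕ → ℝ, ∀ j i, G j i = τ (i + (j + 1)) *
      (H (S (i + (j + 1)) - S i) - H (S (i + (j + 1)) - S (i + 1))) := ⟨_, fun _ _ => rfl⟩
  have h3 : ∀ i, (S (i + 1) - S i) * (Φ i + Φ (i + 1)) ≤ ∑ j ∈ Finset.range n, 2 * G j i := by
    intro i
    rw [h2, hΦ, ← Finset.sum_add_distrib, Finset.mul_sum]
    refine Finset.sum_le_sum fun j _ => ?_
    have e1 := trap (a := S (i + (j + 1)) - S (i + 1)) (b := S (i + (j + 1)) - S i) (ℓ := ℓ)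
      (by linarith [hm i])
    have e2 := mul_le_mul_of_nonneg_left e1 (h0 (i + (j + 1)))
    rw [hG, hH, hH, hq, hq]
    calc (S (i + 1) - S i) * (τ (i + (j + 1)) * ((S (i + (j + 1)) - S i) *
          (ℓ - (S (i + (j + 1)) - S i))) + τ (i + (j + 1)) * ((S (i + (j + 1)) - S (i + 1)) *
          (ℓ - (S (i + (j + 1)) - S (i + 1)))))
        = τ (i + (j + 1)) * ((S (i + (j + 1)) - S i - (S (i + (j + 1)) - S (i + 1))) *
          ((S (i + (j + 1)) - S i) * (ℓ - (S (i + (j + 1)) - S i)) +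
          (S (i + (j + 1)) - S (i + 1)) * (ℓ - (S (i + (j + 1)) - S (i + 1))))) := by ring
      _ ≤ _ := e2
      _ = _ := by ring
  have hper : ∀ j k, G j (k + n) = G j k := by
    intro j k
    rw [hG, hG, show k + n + (j + 1) = k + (j + 1) + n by ring, hτ, hS, hS,
      show k + n + 1 = k + 1 + n by ring, hS]
    congr 3 <;> ring
  have h4 : ∑ i ∈ Finset.range n, ∑ j ∈ Finset.range n, 2 * G j i =
      (ℓ ^ 3 / 3) * ∑ k ∈ Finset.range n, τ k := by
    rw [Finset.sum_comm]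
    have e1 : ∀ j ∈ Finset.range n, ∑ i ∈ Finset.range n, 2 * G j i =
        ∑ i ∈ Finset.range n, 2 * (τ i * (H (S (i + n) - S (i + (n - (j + 1)))) -
          H (S (i + n) - S (i + (n - j))))) := by
      intro j hj
      have hj' := Finset.mem_range.1 hj
      rw [← Finset.mul_sum, ← Finset.mul_sum, ← sum_shift (hper j) (n - (j + 1))]
      congr 1
      refine Finset.sum_congr rfl fun i _ => ?_
      rw [hG, show i + (n - (j + 1)) + (j + 1) = i + n by omega, hτ,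
        show i + (n - (j + 1)) + 1 = i + (n - j) by omega]
    rw [Finset.sum_congr rfl e1, Finset.sum_comm, Finset.mul_sum]
    refine Finset.sum_congr rfl fun i _ => ?_
    rw [← Finset.mul_sum, ← Finset.mul_sum]
    have e2 := Finset.sum_range_sub (fun j => H (S (i + n) - S (i + (n - j)))) n
    rw [e2]
    simp only [Nat.sub_self, Nat.sub_zero, add_zero]
    rw [hS, hH, hH]
    ring
  have h5 := h1.trans (Finset.sum_le_sum fun i _ => h3 i)
  rw [h4] at h5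
  linarith

section
variable {E : Type*} [NormedAddCommGroup E] [InnerProductSpace ℝ E] [FiniteDimensional ℝ E]

/-- The phase points whose billiard trajectory is periodic modulo some isometry `g ∈ Γ`, of length `ℓ`
over a period, such that the traces `τ k` of the focusing forms of the bounces satisfy
`ℓ * ∑ τ k < 6 (d - 1)`, the sum over a period. -/
def TrAll (Γ : Set (E ≃ᵃⁱ[ℝ] E)) (Ω : Set E) : Set (E × E) :=
  {z | ∃ g ∈ Γ, ∃ (n : ℕ) (p u : ℕ → E) (τ : ℕ → ℝ), OrbitMod Ω g n p u ∧ (p 0, u 0) = z ∧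
    (∀ k, TrLe Ω (p k) (u k) 0 (τ k) ∧ τ (k + n) = τ k) ∧
    pos p n * ∑ k ∈ Finset.range n, τ k < 6 * ((Module.finrank ℝ E : ℝ) - 1)}

theorem trAll_sub (Γ : Set (E ≃ᵃⁱ[ℝ] E)) (Ω : Set E) : TrAll Γ Ω ⊆ TrPer Γ Ω := by
  rintro z ⟨g, hgΓ, n, p, u, τ, h, hz, hτ, hlt⟩
  by_contra hcon
  have hn := h.pos
  obtain ⟨S, hSd⟩ : ∃ S : ℕ → ℝ, ∀ k, S k = pos p k := ⟨_, fun _ => rfl⟩
  obtain ⟨ℓ, hℓ⟩ : ∃ ℓ : ℝ, ℓ = pos p n := ⟨_, rfl⟩
  have hpos : ∀ i j, pos (fun k => p (k + i)) j = S (i + j) - S i := by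
    intro i j
    rw [hSd, hSd]
    unfold pos
    rw [Finset.sum_range_add_sub_sum_range]
    refine Finset.sum_congr rfl fun k _ => ?_
    change ‖p (k + 1 + i) - p (k + i)‖ = ‖p (i + k + 1) - p (i + k)‖
    rw [show k + 1 + i = i + k + 1 by ring, show k + i = i + k by ring]
  have hSn : ∀ k, S (k + n) = S k + ℓ := by
    intro k
    have h1 := pos_shift h k
    rw [hpos, ← hℓ] at h1
    linarith
  have hm : ∀ k, S k ≤ S (k + 1) := by
    intro k
    rw [hSd, hSd]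
    unfold pos
    rw [Finset.sum_range_succ]
    linarith [norm_nonneg (p (k + 1) - p k)]
  have hℓ0 : 0 < ℓ := by
    have h1 := pos_n_pos h 0
    rw [hpos, zero_add] at h1
    have h2 := hSn 0
    rw [zero_add] at h2
    linarith
  obtain ⟨c, hc⟩ : ∃ c : ℝ, c = ((Module.finrank ℝ E : ℝ) - 1) * ℓ := ⟨_, rfl⟩
  have key : ∀ i < n, c ≤ ∑ j ∈ Finset.range n, τ (i + (j + 1)) *
      ((S (i + (j + 1)) - S i) * (ℓ - (S (i + (j + 1)) - S i))) := by
    intro i hi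
    by_contra hlt2
    push Not at hlt2
    apply hcon
    refine ⟨g, hgΓ, n, p, u, i, h, hz, hi, fun _ => 0, fun k => τ (k + i),
      fun k _ _ => (hτ (k + i)).1, ?_⟩
    obtain ⟨f, hf⟩ : ∃ f : ℕ → ℝ, ∀ k, f k = τ (i + k) *
      ((S (i + k) - S i) * (ℓ - (S (i + k) - S i))) := ⟨_, fun _ => rfl⟩
    have e1 : ∑ j ∈ Finset.range n, τ (i + (j + 1)) *
        ((S (i + (j + 1)) - S i) * (ℓ - (S (i + (j + 1)) - S i))) =
        ∑ k ∈ Finset.Ico 1 (n + 1), f k := by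
      rw [Finset.sum_Ico_eq_sum_range, Nat.add_sub_cancel]
      refine Finset.sum_congr rfl fun j _ => ?_
      rw [hf, show 1 + j = j + 1 by ring]
    have e2 : f n = 0 := by
      rw [hf, hSn]; ring
    rw [e1, Finset.sum_Ico_succ_top hn, e2, add_zero] at hlt2
    have e3 : pos (fun k => p (k + i)) n = ℓ := by rw [hpos, hSn]; ring
    simp only [CharP.cast_eq_zero, Finset.sum_const_zero, sub_zero]
    rw [e3, ← hc]
    refine lt_of_eq_of_lt (Finset.sum_congr rfl fun k _ => ?_) hlt2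
    rw [hf, hpos, show k + i = i + k by ring]
  have key2 : ∀ i, c ≤ ∑ j ∈ Finset.range n, τ (i + (j + 1)) *
      ((S (i + (j + 1)) - S i) * (ℓ - (S (i + (j + 1)) - S i))) := by
    intro i
    induction i using Nat.strong_induction_on with
    | _ i ih =>
      rcases Nat.lt_or_ge i n with h1 | h1
      · exact key i h1
      · obtain ⟨i', rfl⟩ : ∃ i', i = i' + n := ⟨i - n, by omega⟩
        refine (ih i' (by omega)).trans (le_of_eq (Finset.sum_congr rfl fun j _ => ?_))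
        rw [show i' + n + (j + 1) = i' + (j + 1) + n by ring, (hτ _).2, hSn, hSn]
        ring
  have h6 := avg hSn hm (fun k => (hτ k).2) (fun k => (hτ k).1.nonneg) key2
  rw [← hℓ] at hlt
  rw [hc] at h6
  have h7 : ℓ ^ 2 * (ℓ * ∑ k ∈ Finset.range n, τ k) < ℓ ^ 2 * (6 * ((Module.finrank ℝ E : ℝ) - 1)) :=
    mul_lt_mul_of_pos_left hlt (by positivity)
  nlinarith

/-- the scalar bound of the starting files implies the bound of the trace -/
theorem trLe_of_focLe {Ω : Set E} {q u : E} {β : ℝ} (hu : ‖u‖ = 1) (hβ : 0 ≤ β)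
    (h : FocLe Ω q u 0 β) : TrLe Ω q u 0 (((Module.finrank ℝ E : ℝ) - 1) * β) := by
  obtain ⟨F, hF, a, hw⟩ := h
  have hu0 : u ≠ 0 := fun h0 => by rw [h0, norm_zero] at hu; exact zero_ne_one hu
  have hfr : Module.finrank ℝ (ℝ ∙ u)ᗮ + 1 = Module.finrank ℝ E := by
    have h1 := Submodule.finrank_add_finrank_orthogonal (ℝ ∙ u)
    rw [finrank_span_singleton hu0] at h1
    omega
  have b := stdOrthonormalBasis ℝ (ℝ ∙ u)ᗮ
  refine ⟨F, hF, Fin.elim0, Module.finrank ℝ (ℝ ∙ u)ᗮ, fun j => Real.sqrt β • (b j : E),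
    fun j => ?_, ?_, fun w h0 _ => ?_⟩
  · rw [inner_smul_right, Submodule.mem_orthogonal_singleton_iff_inner_right.1 (b j).2, mul_zero]
  · have e1 : ∀ j, ‖Real.sqrt β • (b j : E)‖ ^ 2 = β := by
      intro j
      have e2 : ‖(b j : E)‖ = 1 := b.orthonormal.1 j
      rw [norm_smul, mul_pow, Real.norm_eq_abs, sq_abs, Real.sq_sqrt hβ, e2]
      ring
    simp only [e1, Finset.sum_const, Finset.card_univ, Fintype.card_fin, nsmul_eq_mul]
    have e3 : (Module.finrank ℝ E : ℝ) = (Module.finrank ℝ (ℝ ∙ u)ᗮ : ℝ) + 1 := by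
      exact_mod_cast hfr.symm
    rw [e3]
    exact le_of_eq (by ring)
  · have h1 := hw w h0 (fun i => i.elim0)
    have hee : ⟪u, u⟫_ℝ = 1 := by rw [real_inner_self_eq_norm_sq, hu]; norm_num
    have hmem : w - ⟪u, w⟫_ℝ • u ∈ (ℝ ∙ u)ᗮ := by
      rw [Submodule.mem_orthogonal_singleton_iff_inner_right, inner_sub_right, inner_smul_right, hee]
      ring
    have e2 := b.sum_sq_norm_inner_right (⟨w - ⟪u, w⟫_ℝ • u, hmem⟩ : (ℝ ∙ u)ᗮ)
    have e3 : ∀ j, ⟪Real.sqrt β • (b j : E), w⟫_ℝ ^ 2 =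
        β * ‖⟪b j, (⟨w - ⟪u, w⟫_ℝ • u, hmem⟩ : (ℝ ∙ u)ᗮ)⟫_ℝ‖ ^ 2 := by
      intro j
      have e4 : ⟪(b j : E), u⟫_ℝ = 0 := by
        rw [real_inner_comm]; exact Submodule.mem_orthogonal_singleton_iff_inner_right.1 (b j).2
      rw [Submodule.coe_inner, real_inner_smul_left, mul_pow, Real.sq_sqrt hβ, Real.norm_eq_abs,
        sq_abs]
      simp only [inner_sub_right, inner_smul_right, e4, mul_zero, sub_zero]
    simp only [e3]
    rw [← Finset.mul_sum, e2]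
    have e5 : ‖(⟨w - ⟪u, w⟫_ℝ • u, hmem⟩ : (ℝ ∙ u)ᗮ)‖ ^ 2 = ‖w‖ ^ 2 - ⟪u, w⟫_ℝ ^ 2 := by
      rw [← norm_perp hee]; rfl
    rw [e5]
    refine h1.trans (le_of_eq (by ring))

end

end Pool.Agent.U939.IV.Tr
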